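import Mathlib

set_option autoImplicit false

namespace Pool.Agent.MP_ec1b19_nt.H49

open Finset

/-- Four by four arrays of natural numbers. -/
abbrev Mx := Fin 4 → Fin 4 → ℕ

/-- Arrays with zero diagonal and all row and column sums `n`. -/
def Mats (n : ℕ) : Finset Mx :=
  (Fintype.piFinset fun _ => Fintype.piFinset fun _ => range (n + 1)).filter
    (fun M => (∀ i, M i i = 0) ∧ (∀ i, ∑ j, M i j = n) ∧ (∀ j, ∑ i, M i j = n))

lemma mem_Mats {n : ℕ} {M : Mx} :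
    M ∈ Mats n ↔ (∀ i, M i i = 0) ∧ (∀ i, ∑ j, M i j = n) ∧ (∀ j, ∑ i, M i j = n) := by
  unfold Mats
  rw [mem_filter]
  refine ⟨fun h => h.2, fun h => ⟨?_, h⟩⟩
  simp only [Fintype.mem_piFinset, mem_range]
  intro i j
  have := single_le_sum (f := M i) (fun _ _ => Nat.zero_le _) (mem_univ j)
  rw [h.2.1 i] at this
  omega

lemma mem_Mats' {n : ℕ} {M : Mx} :
    M ∈ Mats n ↔ (M 0 0 = 0 ∧ M 1 1 = 0 ∧ M 2 2 = 0 ∧ M 3 3 = 0) ∧
      (M 0 0 + M 0 1 + M 0 2 + M 0 3 = n ∧ M 1 0 + M 1 1 + M 1 2 + M 1 3 = n ∧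
        M 2 0 + M 2 1 + M 2 2 + M 2 3 = n ∧ M 3 0 + M 3 1 + M 3 2 + M 3 3 = n) ∧
      (M 0 0 + M 1 0 + M 2 0 + M 3 0 = n ∧ M 0 1 + M 1 1 + M 2 1 + M 3 1 = n ∧
        M 0 2 + M 1 2 + M 2 2 + M 3 2 = n ∧ M 0 3 + M 1 3 + M 2 3 + M 3 3 = n) := by
  rw [mem_Mats]
  simp only [Fin.sum_univ_four, Fin.forall_fin_succ, IsEmpty.forall_iff, and_true]
  rfl

/-- The weight of one row. -/
def row (c : Fin 4 → ℤ) (f : Fin 4 → ℕ) : ℤ := (Nat.multinomial univ f : ℕ) * ∏ j, c j ^ f j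

/-- The weight of an array. -/
def T (c : Fin 4 → Fin 4 → ℤ) (M : Mx) : ℤ := ∏ i, row (c i) (M i)

/-- The weighted count of arrays. -/
def W (c : Fin 4 → Fin 4 → ℤ) (n : ℕ) : ℤ := ∑ M ∈ Mats n, T c M

lemma dvd_choose_mul (n k : ℕ) : n ∣ n.choose k * k := by
  rcases k with _ | k
  · simp
  rcases n with _ | n
  · simp
  rw [← Nat.add_one_mul_choose_eq]
  exact dvd_mul_right _ _

lemma dvd_mult (f : Fin 4 → ℕ) (x : Fin 4) : (∑ j, f j) ∣ Nat.multinomial univ f * f x := by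
  have h := Nat.multinomial_insert (s := univ.erase x) (a := x) (notMem_erase x _) f
  rw [insert_erase (mem_univ x), add_sum_erase _ _ (mem_univ x)] at h
  rw [h, mul_right_comm]
  exact dvd_mul_of_dvd_left (dvd_choose_mul _ _) _

lemma dvd_row (c : Fin 4 → ℤ) (f : Fin 4 → ℕ) (x : Fin 4) :
    ((∑ j, f j : ℕ) : ℤ) ∣ row c f * f x := by
  unfold row
  rw [mul_right_comm]
  apply dvd_mul_of_dvd_left
  exact_mod_cast dvd_mult f x

lemma T_dvd2 {n : ℕ} {M : Mx} (hM : M ∈ Mats n) (c : Fin 4 → Fin 4 → ℤ) {i j : Fin 4} (hij : i ≠ j)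
    (x y : Fin 4) : (n : ℤ) ^ 2 ∣ T c M * (M i x * M j y) := by
  have h1 := dvd_row (c i) (M i) x
  have h2 := dvd_row (c j) (M j) y
  rw [(mem_Mats.1 hM).2.1] at h1 h2
  obtain ⟨r, hr⟩ := prod_dvd_prod_of_subset {i, j} univ (fun i => row (c i) (M i)) (subset_univ _)
  rw [prod_pair hij] at hr
  unfold T
  rw [hr]
  obtain ⟨a, ha⟩ := h1
  obtain ⟨b, hb⟩ := h2
  refine ⟨a * b * r, ?_⟩
  linear_combination (r * row (c j) (M j) * M j y) * ha + (r * n * a) * hb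

lemma T_dvd3 {n : ℕ} {M : Mx} (hM : M ∈ Mats n) (c : Fin 4 → Fin 4 → ℤ) {i j k : Fin 4}
    (hij : i ≠ j) (hik : i ≠ k) (hjk : j ≠ k)
    (x y z : Fin 4) : (n : ℤ) ^ 3 ∣ T c M * (M i x * M j y * M k z) := by
  have h1 := dvd_row (c i) (M i) x
  have h2 := dvd_row (c j) (M j) y
  have h3 := dvd_row (c k) (M k) z
  rw [(mem_Mats.1 hM).2.1] at h1 h2 h3
  obtain ⟨r, hr⟩ := prod_dvd_prod_of_subset {i, j, k} univ (fun i => row (c i) (M i)) (subset_univ _)
  rw [prod_insert (by simp [hij, hik]), prod_pair hjk] at hr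
  unfold T
  rw [hr]
  have := mul_dvd_mul (mul_dvd_mul h1 h2) h3
  rw [show (n : ℤ) * n * n = n ^ 3 by ring] at this
  obtain ⟨a, ha⟩ := this
  exact ⟨a * r, by linear_combination r * ha⟩

lemma univ_four : ∀ i j k l : Fin 4, i ≠ j → i ≠ k → i ≠ l → j ≠ k → j ≠ l → k ≠ l →
    (univ : Finset (Fin 4)) = {i, j, k, l} := by decide

lemma sum_four {A : Type*} [AddCommMonoid A] (f : Fin 4 → A) {i j k l : Fin 4} (h1 : i ≠ j)
    (h2 : i ≠ k) (h3 : i ≠ l) (h4 : j ≠ k) (h5 : j ≠ l) (h6 : k ≠ l) :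
    ∑ x, f x = f i + (f j + (f k + f l)) := by
  rw [univ_four i j k l h1 h2 h3 h4 h5 h6, sum_insert (by simp [h1, h2, h3]),
    sum_insert (by simp [h4, h5]), sum_pair h6]

lemma mult_four (f : Fin 4 → ℕ) {i j k l : Fin 4} (h1 : i ≠ j)
    (h2 : i ≠ k) (h3 : i ≠ l) (h4 : j ≠ k) (h5 : j ≠ l) (h6 : k ≠ l) (h0 : f i = 0) :
    Nat.multinomial univ f = (f j + (f k + f l)).choose (f j) * (f k + f l).choose (f k) := by
  rw [univ_four i j k l h1 h2 h3 h4 h5 h6, Nat.multinomial_insert (by simp [h1, h2, h3]),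
    Nat.multinomial_insert (by simp [h4, h5]), Nat.multinomial_insert (by simp [h6]), h0,
    sum_pair h6]
  simp

lemma mult_perm (f : Fin 4 → ℕ) (σ : Equiv.Perm (Fin 4)) :
    Nat.multinomial univ (fun j => f (σ j)) = Nat.multinomial univ f := by
  unfold Nat.multinomial
  rw [Equiv.sum_comp σ f, Equiv.prod_comp σ (fun j => (f j).factorial)]

lemma T_perm (c : Fin 4 → Fin 4 → ℤ) (M : Mx) (σ : Equiv.Perm (Fin 4)) :
    T (fun i j => c (σ i) (σ j)) (fun i j => M (σ i) (σ j)) = T c M := by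
  unfold T
  rw [← Equiv.prod_comp σ (fun i => row (c i) (M i))]
  refine prod_congr rfl fun i _ => ?_
  unfold row
  rw [mult_perm (M (σ i)) σ, Equiv.prod_comp σ (fun j => c (σ i) j ^ M (σ i) j)]

lemma perm_mem {n : ℕ} {M : Mx} (hM : M ∈ Mats n) (σ : Equiv.Perm (Fin 4)) :
    (fun i j => M (σ i) (σ j)) ∈ Mats n := by
  rw [mem_Mats] at hM ⊢
  refine ⟨fun i => hM.1 _, fun i => ?_, fun j => ?_⟩
  · rw [Equiv.sum_comp σ (M (σ i))]; exact hM.2.1 _
  · rw [Equiv.sum_comp σ (fun i => M i (σ j))]; exact hM.2.2 _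

lemma sum_perm {A : Type*} [AddCommMonoid A] (n : ℕ) (σ : Equiv.Perm (Fin 4)) (F : Mx → A) :
    ∑ M ∈ Mats n, F (fun i j => M (σ i) (σ j)) = ∑ M ∈ Mats n, F M := by
  refine sum_nbij' (fun M i j => M (σ i) (σ j)) (fun M i j => M (σ.symm i) (σ.symm j))
    (fun M hM => perm_mem hM σ) (fun M hM => perm_mem hM σ.symm) ?_ ?_ (fun _ _ => rfl)
  · intro M _; funext i j; simp
  · intro M _; funext i j; simp

lemma mult_shift (f g : Fin 4 → ℕ) {x y : Fin 4} (hxy : x ≠ y) (h1 : f x = g x + 1)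
    (h2 : g y = f y + 1) (h3 : ∀ z, z ≠ x → z ≠ y → f z = g z) :
    Nat.multinomial univ f * f x = Nat.multinomial univ g * g y := by
  have hy : y ∈ univ.erase x := mem_erase.2 ⟨hxy.symm, mem_univ _⟩
  have e1 := Nat.multinomial_spec univ f
  have e2 := Nat.multinomial_spec univ g
  rw [← mul_prod_erase _ _ (mem_univ x), ← mul_prod_erase _ _ hy,
    ← add_sum_erase _ _ (mem_univ x), ← add_sum_erase _ _ hy] at e1 e2
  have e3 : ∏ z ∈ (univ.erase x).erase y, (f z).factorial =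
      ∏ z ∈ (univ.erase x).erase y, (g z).factorial :=
    prod_congr rfl fun z hz => by
      rw [h3 z (mem_erase.1 (mem_erase.1 hz).2).1 (mem_erase.1 hz).1]
  have e4 : ∑ z ∈ (univ.erase x).erase y, f z = ∑ z ∈ (univ.erase x).erase y, g z :=
    sum_congr rfl fun z hz => h3 z (mem_erase.1 (mem_erase.1 hz).2).1 (mem_erase.1 hz).1
  rw [e3, e4, h1] at e1
  rw [h2] at e2
  rw [show g x + 1 + (f y + ∑ z ∈ (univ.erase x).erase y, g z) =
    g x + (f y + 1 + ∑ z ∈ (univ.erase x).erase y, g z) by ring, ← e2] at e1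
  rw [h1, h2]
  have hne : 0 < (g x).factorial * ((f y).factorial * ∏ z ∈ (univ.erase x).erase y, (g z).factorial) := by
    have := prod_pos (s := (univ.erase x).erase y) (fun z _ => Nat.factorial_pos (g z))
    positivity
  apply Nat.eq_of_mul_eq_mul_left hne
  rw [Nat.factorial_succ, Nat.factorial_succ] at e1
  linear_combination e1

/-- The skew conference matrix of order four. -/
def cc : Fin 4 → Fin 4 → ℤ := ![![0, 1, 1, 1], ![-1, 0, 1, -1], ![-1, -1, 0, 1], ![-1, 1, -1, 0]]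

/-- The cyclic permutation of the last three indices. -/
def cyc : Equiv.Perm (Fin 4) := ⟨![0, 2, 3, 1], ![0, 3, 1, 2], by decide, by decide⟩

lemma cc_cyc : (fun i j => cc (cyc i) (cyc j)) = cc := by
  funext i j
  revert i j
  decide

lemma cc_sq : ∀ i j : Fin 4, i ≠ j → cc i j * cc i j = 1 := by decide

lemma T_cyc (M : Mx) : T cc (fun i j => M (cyc i) (cyc j)) = T cc M := by
  have := T_perm cc M cyc
  rwa [cc_cyc] at this

end Pool.Agent.MP_ec1b19_nt.H49
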