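import Mathlib
import Pool.Agent.MP_ec1b19_nt.H49.Mat

set_option autoImplicit false

namespace Pool.Agent.MP_ec1b19_nt.H49

open Finset MvPolynomial

/-- Polynomials in four variables. -/
abbrev P4 := MvPolynomial (Fin 4) ℤ

/-- Exponent vector. -/
noncomputable def ex (a b c d : ℕ) : Fin 4 →₀ ℕ := Finsupp.equivFunOnFinite.symm ![a, b, c, d]

/-- Coefficient extraction. -/
noncomputable def cf (a b c d : ℕ) (f : P4) : ℤ := coeff (ex a b c d) f

lemma cf_add (a b c d : ℕ) (f g : P4) : cf a b c d (f + g) = cf a b c d f + cf a b c d g :=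
  coeff_add _ _ _

lemma cf_neg (a b c d : ℕ) (f : P4) : cf a b c d (-f) = - cf a b c d f := coeff_neg _ _ _

lemma cf_sum {ι : Type*} (a b c d : ℕ) (s : Finset ι) (f : ι → P4) :
    cf a b c d (∑ i ∈ s, f i) = ∑ i ∈ s, cf a b c d (f i) := coeff_sum _ _ _

lemma cf_int (a b c d : ℕ) (r : ℤ) (f : P4) : cf a b c d ((r : P4) * f) = r * cf a b c d f := by
  unfold cf
  rw [← coeff_C_mul]
  rfl

lemma cf_X0 (a b c d : ℕ) (f : P4) :
    cf a b c d (X 0 * f) = if a = 0 then 0 else cf (a - 1) b c d f := by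
  unfold cf
  rw [coeff_X_mul']
  have : ex a b c d - Finsupp.single 0 1 = ex (a - 1) b c d := by
    ext i; fin_cases i <;> simp [ex]
  rw [this]
  by_cases h : a = 0 <;> simp [ex, h]

lemma cf_X1 (a b c d : ℕ) (f : P4) :
    cf a b c d (X 1 * f) = if b = 0 then 0 else cf a (b - 1) c d f := by
  unfold cf
  rw [coeff_X_mul']
  have : ex a b c d - Finsupp.single 1 1 = ex a (b - 1) c d := by
    ext i; fin_cases i <;> simp [ex]
  rw [this]
  by_cases h : b = 0 <;> simp [ex, h]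

lemma cf_X2 (a b c d : ℕ) (f : P4) :
    cf a b c d (X 2 * f) = if c = 0 then 0 else cf a b (c - 1) d f := by
  unfold cf
  rw [coeff_X_mul']
  have : ex a b c d - Finsupp.single 2 1 = ex a b (c - 1) d := by
    ext i; fin_cases i <;> simp [ex]
  rw [this]
  by_cases h : c = 0 <;> simp [ex, h]

lemma cf_X3 (a b c d : ℕ) (f : P4) :
    cf a b c d (X 3 * f) = if d = 0 then 0 else cf a b c (d - 1) f := by
  unfold cf
  rw [coeff_X_mul']
  have : ex a b c d - Finsupp.single 3 1 = ex a b c (d - 1) := by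
    ext i; fin_cases i <;> simp [ex]
  rw [this]
  by_cases h : d = 0 <;> simp [ex, h]

lemma cf_prod (a b c d : ℕ) (e : Fin 4 → ℕ) :
    cf a b c d (∏ j, X j ^ e j) = if a = e 0 ∧ b = e 1 ∧ c = e 2 ∧ d = e 3 then 1 else 0 := by
  unfold cf
  rw [coeff_prod_X_pow]
  congr 1
  rw [Finsupp.ext_iff]
  simp [Fin.forall_fin_succ, ex, Finsupp.indicator_apply]

lemma cf_mono (a b c d e0 e1 e2 e3 : ℕ) :
    cf a b c d (X 0 ^ e0 * X 1 ^ e1 * X 2 ^ e2 * X 3 ^ e3) =
      if a = e0 ∧ b = e1 ∧ c = e2 ∧ d = e3 then 1 else 0 := by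
  have := cf_prod a b c d ![e0, e1, e2, e3]
  rw [Fin.prod_univ_four] at this
  exact this

lemma cf_one (a b c d : ℕ) :
    cf a b c d 1 = if a = 0 ∧ b = 0 ∧ c = 0 ∧ d = 0 then 1 else 0 := by
  simpa using cf_mono a b c d 0 0 0 0

lemma coeff_kill (S : Fin 4 → Prop) [DecidablePred S] (f : P4) :
    ∀ k : Fin 4 →₀ ℕ, (∀ i, ¬ S i → k i = 0) →
      coeff k (aeval (fun i => if S i then (X i : P4) else 0) f) = coeff k f := by
  induction f using MvPolynomial.induction_on with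
  | C a => intro k _; simp
  | add f g hf hg => intro k hk; rw [map_add, coeff_add, coeff_add, hf k hk, hg k hk]
  | mul_X f i hf =>
    intro k hk
    rw [map_mul, aeval_X]
    by_cases hi : S i
    · rw [if_pos hi, coeff_mul_X', coeff_mul_X', hf]
      intro j hj
      simp [hk j hj]
    · rw [if_neg hi, mul_zero, coeff_mul_X', if_neg (by simp [hk i hi])]
      simp

/-- Product of powers of the four linear forms. -/
def LL {R : Type*} [CommRing R] (y0 y1 y2 y3 : R) (a b c d : ℕ) : R :=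
  (y1 + y2 + y3) ^ a * (-y0 + y2 - y3) ^ b * (-y0 - y1 + y3) ^ c * (-y0 + y1 - y2) ^ d

/-- The combination that vanishes in the proof of the master theorem. -/
def QQ {R : Type*} [CommRing R] (y0 y1 y2 y3 : R) (a b c d : ℕ) : R :=
  LL y0 y1 y2 y3 a b c d +
  (y0 * (y1 * LL y0 y1 y2 y3 (a - 1) (b - 1) c d) + y0 * (y2 * LL y0 y1 y2 y3 (a - 1) b (c - 1) d) +
   y0 * (y3 * LL y0 y1 y2 y3 (a - 1) b c (d - 1)) + y1 * (y2 * LL y0 y1 y2 y3 a (b - 1) (c - 1) d) +
   y1 * (y3 * LL y0 y1 y2 y3 a (b - 1) c (d - 1)) + y2 * (y3 * LL y0 y1 y2 y3 a b (c - 1) (d - 1)) +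
   ((9 : ℤ) : R) * (y0 * (y1 * (y2 * (y3 * LL y0 y1 y2 y3 (a - 1) (b - 1) (c - 1) (d - 1))))))

lemma QQ_zero {R : Type*} [CommRing R] (y0 y1 y2 y3 : R) (a b c d : ℕ) (h0 : a = 0 → y0 = 0)
    (h1 : b = 0 → y1 = 0) (h2 : c = 0 → y2 = 0) (h3 : d = 0 → y3 = 0)
    (hne : ¬ (a = 0 ∧ b = 0 ∧ c = 0 ∧ d = 0)) : QQ y0 y1 y2 y3 a b c d = 0 := by
  unfold QQ LL
  rcases a with _ | a <;> rcases b with _ | b <;> rcases c with _ | c <;> rcases d with _ | d <;>
    (try rw [h0 rfl]) <;> (try rw [h1 rfl]) <;> (try rw [h2 rfl]) <;> (try rw [h3 rfl]) <;>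
    first
    | exact absurd ⟨rfl, rfl, rfl, rfl⟩ hne
    | (simp only [Nat.add_sub_cancel, pow_succ, pow_zero, zero_tsub]; push_cast; ring)

lemma cf_QQ (a b c d : ℕ) (hne : ¬ (a = 0 ∧ b = 0 ∧ c = 0 ∧ d = 0)) :
    cf a b c d (QQ (X 0) (X 1) (X 2) (X 3) a b c d) = 0 := by
  unfold cf
  rw [← coeff_kill (fun i => ex a b c d i ≠ 0) _ _ (fun i hi => not_not.1 hi)]
  have : aeval (fun i => if ex a b c d i ≠ 0 then (X i : P4) else 0)
      (QQ (X 0) (X 1) (X 2) (X 3) a b c d : P4) =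
      QQ (if ex a b c d 0 ≠ 0 then (X 0 : P4) else 0) (if ex a b c d 1 ≠ 0 then (X 1 : P4) else 0)
        (if ex a b c d 2 ≠ 0 then (X 2 : P4) else 0) (if ex a b c d 3 ≠ 0 then (X 3 : P4) else 0)
        a b c d := by
    simp only [QQ, LL, map_add, map_mul, map_pow, map_sub, map_neg, aeval_X, map_intCast]
  rw [this, QQ_zero _ _ _ _ _ _ _ _ _ _ _ _ hne, coeff_zero]
  all_goals
    intro h
    simp [ex, h]

/-- The denominator polynomial minus one, negated. -/
noncomputable def PD : P4 :=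
  -(X 0 * X 1 + X 0 * X 2 + X 0 * X 3 + X 1 * X 2 + X 1 * X 3 + X 2 * X 3 +
    ((9 : ℤ) : P4) * (X 0 * X 1 * X 2 * X 3))

theorem master (N : ℕ) : ∀ a b c d : ℕ, a + b + c + d ≤ N →
    cf a b c d (LL (X 0) (X 1) (X 2) (X 3) a b c d) = cf a b c d (∑ m ∈ range (N + 1), PD ^ m) := by
  induction N with
  | zero =>
    intro a b c d h
    obtain rfl : a = 0 := by omega
    obtain rfl : b = 0 := by omega
    obtain rfl : c = 0 := by omega
    obtain rfl : d = 0 := by omega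
    simp [LL]
  | succ N ih =>
    intro a b c d h
    rw [geom_sum_succ]
    set H : P4 := ∑ m ∈ range (N + 1), PD ^ m with hH
    have e1 : PD * H + 1 = 1 + -(X 0 * (X 1 * H) + X 0 * (X 2 * H) + X 0 * (X 3 * H) +
        X 1 * (X 2 * H) + X 1 * (X 3 * H) + X 2 * (X 3 * H) +
        ((9 : ℤ) : P4) * (X 0 * (X 1 * (X 2 * (X 3 * H))))) := by
      unfold PD; ring
    rw [e1]
    by_cases hne : a = 0 ∧ b = 0 ∧ c = 0 ∧ d = 0
    · obtain ⟨rfl, rfl, rfl, rfl⟩ := hne
      simp only [cf_add, cf_neg, cf_int, cf_X0, cf_X1, cf_X2, cf_X3, if_true]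
      simp [LL]
    · have e2 := cf_QQ a b c d hne
      unfold QQ at e2
      simp only [cf_add, cf_neg, cf_int, cf_X0, cf_X1, cf_X2, cf_X3] at e2 ⊢
      rw [cf_one, if_neg hne]
      have i01 : a ≠ 0 → b ≠ 0 → _ := fun _ _ => ih (a - 1) (b - 1) c d (by omega)
      have i02 : a ≠ 0 → c ≠ 0 → _ := fun _ _ => ih (a - 1) b (c - 1) d (by omega)
      have i03 : a ≠ 0 → d ≠ 0 → _ := fun _ _ => ih (a - 1) b c (d - 1) (by omega)
      have i12 : b ≠ 0 → c ≠ 0 → _ := fun _ _ => ih a (b - 1) (c - 1) d (by omega)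
      have i13 : b ≠ 0 → d ≠ 0 → _ := fun _ _ => ih a (b - 1) c (d - 1) (by omega)
      have i23 : c ≠ 0 → d ≠ 0 → _ := fun _ _ => ih a b (c - 1) (d - 1) (by omega)
      have i4 : a ≠ 0 → _ := fun _ => ih (a - 1) (b - 1) (c - 1) (d - 1) (by omega)
      by_cases ha : a = 0 <;> by_cases hb : b = 0 <;> by_cases hc : c = 0 <;> by_cases hd : d = 0 <;>
        simp only [ha, hb, hc, hd, if_true, if_false, ne_eq, not_true_eq_false, not_false_eq_true,
          forall_const, IsEmpty.forall_iff, and_self] at * <;>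
        linarith

theorem W_eq_cf (n : ℕ) : W cc n = cf n n n n (LL (X 0) (X 1) (X 2) (X 3) n n n n) := by
  have e1 : (LL (X 0) (X 1) (X 2) (X 3) n n n n : P4) =
      ∏ i : Fin 4, (∑ j : Fin 4, ((cc i j : ℤ) : P4) * X j) ^ n := by
    rw [Fin.prod_univ_four]
    simp only [Fin.sum_univ_four]
    unfold LL
    simp [cc, sub_eq_add_neg]
  rw [e1]
  simp only [sum_pow_eq_sum_piAntidiag]
  rw [prod_univ_sum, cf_sum]
  have e2 : ∀ M : Mx, (∏ i : Fin 4, (((Nat.multinomial univ (M i) : ℕ) : P4) *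
      ∏ j : Fin 4, (((cc i j : ℤ) : P4) * X j) ^ M i j)) =
      ((T cc M : ℤ) : P4) * ∏ j, X j ^ (∑ i, M i j) := by
    intro M
    unfold T row
    simp only [mul_pow, prod_mul_distrib]
    push_cast
    rw [mul_assoc]
    congr 2
    rw [prod_comm]
    simp only [prod_pow_eq_pow_sum]
  simp only [e2, cf_int, cf_prod]
  unfold W
  symm
  rw [← sum_subset (s₁ := Mats n)]
  · refine sum_congr rfl fun M hM => ?_
    obtain ⟨-, -, hc⟩ := mem_Mats.1 hM
    simp [hc]
  · intro M hM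
    obtain ⟨-, hr, -⟩ := mem_Mats.1 hM
    simp [hr]
  · intro M hM hM'
    split_ifs with h
    · rw [mul_one]
      by_contra hT
      apply hM'
      rw [mem_Mats]
      refine ⟨fun i => ?_, fun i => ?_, fun j => ?_⟩
      · by_contra h0
        apply hT
        unfold T row
        refine prod_eq_zero (mem_univ i) (mul_eq_zero_of_right _ (prod_eq_zero (mem_univ i) ?_))
        have : cc i i = 0 := (by decide : ∀ i, cc i i = 0) i
        rw [this, zero_pow h0]
      · have := Fintype.mem_piFinset.1 hM i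
        exact (mem_piAntidiag.1 this).1
      · fin_cases j
        exacts [h.1.symm, h.2.1.symm, h.2.2.1.symm, h.2.2.2.symm]
    · rw [mul_zero]

end Pool.Agent.MP_ec1b19_nt.H49
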