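import Mathlib
import Pool.Agent.MP_ec1b19_nt.H49.Mac

set_option autoImplicit false

namespace Pool.Agent.MP_ec1b19_nt.H49

open Finset MvPolynomial

lemma cf_nat (a b c d : ℕ) (r : ℕ) (f : P4) : cf a b c d (f * (r : P4)) = cf a b c d f * r := by
  have := cf_int a b c d r f
  push_cast at this
  rw [mul_comm, this, mul_comm]

lemma cf_uvst (k a c h : ℕ) :
    cf k k k k ((X 0 * X 1) ^ a * (X 2 * X 3) ^ c * ((X 0 + X 1) * (X 2 + X 3)) ^ h) =
      if a = c ∧ a ≤ k ∧ h = 2 * (k - a) then ((h.choose (k - a) : ℕ) : ℤ) ^ 2 else 0 := by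
  have e : ((X 0 * X 1) ^ a * (X 2 * X 3) ^ c * ((X 0 + X 1) * (X 2 + X 3)) ^ h : P4) =
      ∑ i ∈ range (h + 1), ∑ j ∈ range (h + 1),
        (X 0 ^ (a + i) * X 1 ^ (a + (h - i)) * X 2 ^ (c + j) * X 3 ^ (c + (h - j))) *
          ((h.choose i * h.choose j : ℕ) : P4) := by
    rw [mul_pow (X 0 + X 1), add_pow, add_pow, sum_mul_sum, mul_sum]
    refine sum_congr rfl fun i _ => ?_
    rw [mul_sum]
    refine sum_congr rfl fun j _ => ?_
    push_cast
    ring
  rw [e]
  simp only [cf_sum, cf_nat, cf_mono]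
  split_ifs with hc
  · obtain ⟨rfl, h1, h2⟩ := hc
    rw [sum_eq_single (k - a), sum_eq_single (k - a), if_pos (by omega)]
    · push_cast; ring
    · intro j _ hj; rw [if_neg (by omega), zero_mul]
    · intro hj; exact absurd (mem_range.2 (by omega)) hj
    · intro i _ hi
      exact sum_eq_zero fun j _ => by rw [if_neg (by omega), zero_mul]
    · intro hj; exact absurd (mem_range.2 (by omega)) hj
  · refine sum_eq_zero fun i hi => sum_eq_zero fun j hj => ?_
    rw [mem_range] at hi hj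
    rw [if_neg (by omega), zero_mul]

/-- The number of closed walks of length `2 k` on the cubic lattice. -/
def c3 (k : ℕ) : ℤ :=
  ∑ a ∈ range (k + 1),
    ((2 * k).choose a * (2 * k - a).choose a : ℕ) * (((2 * (k - a)).choose (k - a) : ℕ) : ℤ) ^ 2

lemma cf_A (k j b : ℕ) :
    cf k k k k ((X 0 * X 1 * (X 2 * X 3)) ^ j *
      (X 0 * X 1 + (X 2 * X 3 + (X 0 + X 1) * (X 2 + X 3))) ^ b) =
      if j ≤ k ∧ b = 2 * (k - j) then c3 (k - j) else 0 := by
  have e : ((X 0 * X 1 * (X 2 * X 3)) ^ j *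
      (X 0 * X 1 + (X 2 * X 3 + (X 0 + X 1) * (X 2 + X 3))) ^ b : P4) =
      ∑ a ∈ range (b + 1), ∑ c ∈ range (b - a + 1),
        ((X 0 * X 1) ^ (j + a) * (X 2 * X 3) ^ (j + c) * ((X 0 + X 1) * (X 2 + X 3)) ^ (b - a - c)) *
          ((b.choose a * (b - a).choose c : ℕ) : P4) := by
    rw [add_pow, mul_sum]
    refine sum_congr rfl fun a _ => ?_
    rw [add_pow, mul_sum, sum_mul, mul_sum]
    refine sum_congr rfl fun c _ => ?_
    push_cast
    generalize (X 0 + X 1 : P4) * (X 2 + X 3) = st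
    ring
  rw [e]
  simp only [cf_sum, cf_nat, cf_uvst]
  split_ifs with hc
  · obtain ⟨h1, rfl⟩ := hc
    obtain ⟨m, rfl⟩ : ∃ m, k = j + m := ⟨k - j, by omega⟩
    rw [Nat.add_sub_cancel_left]
    unfold c3
    rw [← sum_subset (s₁ := range (m + 1)) (s₂ := range (2 * m + 1))
      (range_subset_range.2 (by omega))]
    · refine sum_congr rfl fun a ha => ?_
      rw [mem_range] at ha
      rw [sum_eq_single a, if_pos (by omega), show j + m - (j + a) = m - a by omega,
        show 2 * m - a - a = 2 * (m - a) by omega, mul_comm]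
      · intro c _ hc; rw [if_neg (by omega), zero_mul]
      · intro hj; exact absurd (mem_range.2 (by omega)) hj
    · intro a _ ha
      rw [mem_range] at ha
      exact sum_eq_zero fun c _ => by rw [if_neg (by omega), zero_mul]
  · refine sum_eq_zero fun a ha => sum_eq_zero fun c hc' => ?_
    rw [mem_range] at ha hc'
    rw [if_neg (by omega), zero_mul]

theorem W_eq_sum (n : ℕ) :
    W cc n = ∑ k ∈ range (n + 1), (-9) ^ (n - k) * ((n + k).choose (n - k) : ℕ) * c3 k := by
  rw [W_eq_cf, master (4 * n) n n n n (by omega), cf_sum]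
  have e : ∀ m, cf n n n n (PD ^ m) = ∑ j ∈ range (m + 1),
      (fun j b => (-1 : ℤ) ^ (j + b) * 9 ^ j * ((j + b).choose j : ℕ) *
        if j ≤ n ∧ b = 2 * (n - j) then c3 (n - j) else 0) j (m - j) := by
    intro m
    have e1 : PD ^ m = ∑ j ∈ range (m + 1), (((-1) ^ m * 9 ^ j * (m.choose j : ℕ) : ℤ) : P4) *
        ((X 0 * X 1 * (X 2 * X 3)) ^ j *
          (X 0 * X 1 + (X 2 * X 3 + (X 0 + X 1) * (X 2 + X 3))) ^ (m - j)) := by
      have : PD = (-1) * (9 * (X 0 * X 1 * (X 2 * X 3)) +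
          (X 0 * X 1 + (X 2 * X 3 + (X 0 + X 1) * (X 2 + X 3)))) := by
        unfold PD; push_cast; ring
      rw [this, mul_pow, add_pow, mul_sum]
      refine sum_congr rfl fun j _ => ?_
      push_cast
      generalize (X 0 * X 1 + (X 2 * X 3 + (X 0 + X 1) * (X 2 + X 3)) : P4) = A
      generalize (X 0 * X 1 * (X 2 * X 3) : P4) = E
      ring
    rw [e1, cf_sum]
    refine sum_congr rfl fun j hj => ?_
    rw [mem_range] at hj
    rw [cf_int, cf_A]
    simp only
    rw [show j + (m - j) = m by omega]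
  simp only [e]
  rw [sum_range_diag_flip (4 * n + 1) (fun j b => (-1 : ℤ) ^ (j + b) * 9 ^ j * ((j + b).choose j : ℕ) *
        if j ≤ n ∧ b = 2 * (n - j) then c3 (n - j) else 0),
    ← sum_subset (s₁ := range (n + 1)) (range_subset_range.2 (by omega)), ← sum_range_reflect]
  · refine sum_congr rfl fun k hk => ?_
    rw [mem_range] at hk
    rw [sum_eq_single (2 * k), if_pos (by omega), show n + 1 - 1 - k = n - k by omega,
      show n - (n - k) = k by omega, show n - k + 2 * k = n + k by omega]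
    · have : (-1 : ℤ) ^ (n + k) = (-1) ^ (n - k) := by
        rw [show n + k = n - k + 2 * k by omega, pow_add, pow_mul]; simp
      rw [this, ← mul_pow]
      norm_num
    · intro b _ hb; rw [if_neg (by omega), mul_zero]
    · intro hj; exact absurd (mem_range.2 (by omega)) hj
  · intro j _ hj
    rw [mem_range] at hj
    exact sum_eq_zero fun b _ => by rw [if_neg (by omega), mul_zero]

end Pool.Agent.MP_ec1b19_nt.H49
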