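import Mathlib

set_option autoImplicit false

namespace Pool.Agent.MP_ec1b19_nt.H49

open Finset

variable {p : ℕ} [hp : Fact p.Prime]

/-- The `p`-adic inverse of `k` if `p` does not divide `k`, and zero otherwise. -/
noncomputable def io (p : ℕ) [Fact p.Prime] (k : ℕ) : ℤ_[p] := Ring.inverse (k : ℤ_[p])

lemma isUnit_iff_not_dvd (z : ℤ_[p]) : IsUnit z ↔ ¬ (p : ℤ_[p]) ∣ z := by
  rw [← PadicInt.norm_lt_one_iff_dvd, PadicInt.isUnit_iff]
  have := PadicInt.norm_le_one z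
  constructor
  · intro h; rw [h]; exact lt_irrefl _
  · intro h; exact le_antisymm this (not_lt.1 h)

lemma natCast_dvd_iff (k : ℕ) : (p : ℤ_[p]) ∣ (k : ℤ_[p]) ↔ p ∣ k := by
  have := PadicInt.pow_p_dvd_int_iff (p := p) 1 (k : ℤ)
  simp only [pow_one, Int.cast_natCast] at this
  rw [this, Int.natCast_dvd_natCast]

lemma isUnit_natCast {k : ℕ} (h : ¬ p ∣ k) : IsUnit (k : ℤ_[p]) := by
  rw [isUnit_iff_not_dvd, natCast_dvd_iff]; exact h

lemma io_of_dvd {k : ℕ} (h : p ∣ k) : io p k = 0 := by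
  unfold io
  apply Ring.inverse_non_unit
  rw [isUnit_iff_not_dvd, natCast_dvd_iff]; exact not_not.2 h

lemma mul_io {k : ℕ} (h : ¬ p ∣ k) : (k : ℤ_[p]) * io p k = 1 :=
  Ring.mul_inverse_cancel _ (isUnit_natCast h)

lemma io_add {j : ℕ} (hj : p ∣ j) (i : ℕ) :
    io p (j + i) = io p i - j * io p i * io p (j + i) := by
  by_cases hi : p ∣ i
  · rw [io_of_dvd hi, io_of_dvd (dvd_add hj hi)]; ring
  · have h2 : ¬ p ∣ j + i := fun h => hi ((Nat.dvd_add_right hj).1 h)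
    have e1 := mul_io hi
    have e2 := mul_io h2
    push_cast at e2
    linear_combination (io p i) * e2 - (io p (j + i)) * e1

lemma io_refl {k l : ℕ} (h : p ∣ k + l) :
    io p l = - io p k + ((k + l : ℕ) : ℤ_[p]) * io p k * io p l := by
  by_cases hk : p ∣ k
  · rw [io_of_dvd hk, io_of_dvd ((Nat.dvd_add_right hk).1 h)]; ring
  · have h2 : ¬ p ∣ l := fun h' => hk ((Nat.dvd_add_left h').1 h)
    have e1 := mul_io hk
    have e2 := mul_io h2
    push_cast
    linear_combination (-io p k) * e2 - (io p l) * e1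

/-- Sum of inverse squares. -/
noncomputable def H2 (p : ℕ) [Fact p.Prime] (N : ℕ) : ℤ_[p] := ∑ k ∈ range N, io p k ^ 2

/-- Sum of inverse cubes. -/
noncomputable def H3 (p : ℕ) [Fact p.Prime] (N : ℕ) : ℤ_[p] := ∑ k ∈ range N, io p k ^ 3

lemma H2_mul {N : ℕ} (hN : p ∣ N) (t : ℕ) :
    (N : ℤ_[p]) ^ 2 ∣ H2 p (N * t) - (t * H2 p N - N * (t * (t - 1)) * H3 p N) := by
  induction t with
  | zero => simp [H2]
  | succ t ih =>
    have h1 : H2 p (N * (t + 1)) = H2 p (N * t) + ∑ k ∈ range N, io p (N * t + k) ^ 2 := by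
      unfold H2
      rw [Nat.mul_succ, sum_range_add]
    have h2 : (N : ℤ_[p]) ^ 2 ∣ ∑ k ∈ range N,
        (io p (N * t + k) ^ 2 - (io p k ^ 2 - 2 * N * t * io p k ^ 3)) := by
      refine dvd_sum fun k _ => ?_
      have e := io_add (dvd_mul_of_dvd_left hN t) k
      push_cast at e
      refine ⟨t ^ 2 * io p k ^ 2 * io p (N * t + k) * (2 * io p k + io p (N * t + k)), ?_⟩
      generalize io p (N * t + k) = v at e ⊢
      generalize io p k = u at e ⊢
      linear_combination (u + v - (N * t * u) * (2 * u + v)) * e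
    rw [sum_sub_distrib, sum_sub_distrib, ← mul_sum] at h2
    have h3 := dvd_add ih h2
    rw [h1]
    convert h3 using 1
    unfold H2 H3
    push_cast
    ring

lemma H2_main (b : ℕ) : ((p * b : ℕ) : ℤ_[p]) ∣ H2 p (p * b) - b * H2 p p := by
  induction b using Nat.strong_induction_on with
  | _ b ih =>
    rcases Nat.eq_zero_or_pos b with rfl | hb
    · simp [H2]
    by_cases h : p ∣ b
    · obtain ⟨c, rfl⟩ := h
      have hc : c < p * c := by
        have := hp.out.one_lt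
        have : 0 < c := Nat.pos_of_mul_pos_left hb
        nlinarith
      obtain ⟨w1, h1⟩ := ih c hc
      obtain ⟨w2, h2⟩ := H2_mul (dvd_mul_right p c) p
      rw [show p * (p * c) = p * c * p by ring]
      refine ⟨w1 + c * w2 - (p - 1) * H3 p (p * c), ?_⟩
      push_cast at h1 h2 ⊢
      linear_combination h2 + p * h1
    · obtain ⟨w2, h2⟩ := H2_mul (dvd_refl p) b
      have e := mul_io h
      refine ⟨io p b * (p * w2 - (b * (b - 1)) * H3 p p), ?_⟩
      push_cast at h2 ⊢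
      linear_combination h2 - (p * (p * w2 - (b * (b - 1)) * H3 p p)) * e

lemma toZMod_io (k : ℕ) : PadicInt.toZMod (io p k) = (k : ZMod p)⁻¹ := by
  by_cases h : p ∣ k
  · rw [io_of_dvd h, (ZMod.natCast_eq_zero_iff k p).2 h]; simp
  · have e := congrArg PadicInt.toZMod (mul_io h)
    rw [map_mul, map_one, map_natCast] at e
    exact (eq_inv_of_mul_eq_one_right e)

lemma three_H2 (h2 : p ≠ 2) : (p : ℤ_[p]) ∣ 3 * H2 p p := by
  rw [← Ideal.mem_span_singleton, ← PadicInt.maximalIdeal_eq_span_p, ← PadicInt.ker_toZMod,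
    RingHom.mem_ker, map_mul]
  unfold H2
  rw [map_sum]
  simp only [map_pow, toZMod_io]
  have e1 : ∑ k ∈ range p, ((k : ZMod p)⁻¹) ^ 2 = ∑ x : ZMod p, (x⁻¹) ^ 2 := by
    refine sum_bij (fun k _ => (k : ZMod p)) (fun _ _ => mem_univ _) ?_ ?_ (fun _ _ => rfl)
    · intro a ha b hb hab
      rw [mem_range] at ha hb
      have := (ZMod.natCast_eq_natCast_iff' a b p).1 hab
      rwa [Nat.mod_eq_of_lt ha, Nat.mod_eq_of_lt hb] at this
    · intro x _
      exact ⟨x.val, mem_range.2 (ZMod.val_lt x), ZMod.natCast_zmod_val x⟩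
  rw [e1]
  have h20 : (2 : ZMod p) ≠ 0 := by
    intro h
    have := (ZMod.natCast_eq_zero_iff 2 p).1 (by exact_mod_cast h)
    exact h2 ((Nat.prime_dvd_prime_iff_eq hp.out Nat.prime_two).1 this)
  have e2 := Equiv.sum_comp (Equiv.mulLeft₀ (2 : ZMod p)⁻¹ (inv_ne_zero h20))
    (fun x : ZMod p => (x⁻¹) ^ 2)
  simp only [Equiv.mulLeft₀_apply, mul_inv, inv_inv, mul_pow] at e2
  rw [← mul_sum] at e2
  have e3 : (PadicInt.toZMod (3 : ℤ_[p]) : ZMod p) = 3 := map_ofNat _ 3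
  rw [e3]
  linear_combination e2

/-- The alternating convolution of inverses. -/
noncomputable def mu (p : ℕ) [Fact p.Prime] (N : ℕ) : ℤ_[p] :=
  ∑ x ∈ HasAntidiagonal.antidiagonal N, (-1) ^ x.1 * io p x.1 * io p x.2

/-- The alternating sum of inverse squares. -/
noncomputable def DD (p : ℕ) [Fact p.Prime] (N : ℕ) : ℤ_[p] :=
  ∑ k ∈ range N, (-1) ^ k * io p k ^ 2

lemma mu_add_DD {N : ℕ} (hN : p ∣ N) : (N : ℤ_[p]) ∣ mu p N + DD p N := by
  have h1 : DD p N = ∑ x ∈ HasAntidiagonal.antidiagonal N, (-1) ^ x.1 * io p x.1 ^ 2 := by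
    rw [Finset.Nat.sum_antidiagonal_eq_sum_range_succ (fun i _ => (-1 : ℤ_[p]) ^ i * io p i ^ 2),
      sum_range_succ, io_of_dvd hN]
    simp [DD]
  rw [h1]
  unfold mu
  rw [← sum_add_distrib]
  refine dvd_sum fun x hx => ?_
  rw [HasAntidiagonal.mem_antidiagonal] at hx
  have e := io_refl (p := p) (k := x.1) (l := x.2) (hx ▸ hN)
  rw [hx] at e
  refine ⟨(-1) ^ x.1 * io p x.1 ^ 2 * io p x.2, ?_⟩
  linear_combination ((-1) ^ x.1 * io p x.1) * e

lemma two_unit (h2 : p ≠ 2) : (2 : ℤ_[p]) * io p 2 = 1 := by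
  have : ¬ p ∣ 2 := fun h => h2 ((Nat.prime_dvd_prime_iff_eq hp.out Nat.prime_two).1 h)
  exact_mod_cast mul_io this

lemma mu_odd (h2 : p ≠ 2) {N : ℕ} (hN : Odd N) : mu p N = 0 := by
  have h1 : mu p N = ∑ x ∈ HasAntidiagonal.antidiagonal N, (-1) ^ x.2 * io p x.2 * io p x.1 := by
    unfold mu
    rw [← Finset.Nat.sum_antidiagonal_swap]
    rfl
  have h3 : mu p N + mu p N = 0 := by
    nth_rewrite 2 [h1]
    unfold mu
    rw [← sum_add_distrib]
    refine sum_eq_zero fun x hx => ?_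
    rw [HasAntidiagonal.mem_antidiagonal] at hx
    have e1 : (-1 : ℤ_[p]) ^ x.1 * (-1) ^ x.2 = -1 := by rw [← pow_add, hx, hN.neg_one_pow]
    have e2 : (-1 : ℤ_[p]) ^ x.1 * (-1) ^ x.1 = 1 := by rw [← mul_pow]; simp
    have e3 : (-1 : ℤ_[p]) ^ x.2 = - (-1) ^ x.1 := by
      linear_combination ((-1 : ℤ_[p]) ^ x.1) * e1 - ((-1 : ℤ_[p]) ^ x.2) * e2
    rw [e3]; ring
  have := two_unit h2
  linear_combination (io p 2) * h3 - (mu p N) * this

lemma DD_mul (h2 : p ≠ 2) {q : ℕ} (hq : p ∣ q) (hodd : Odd q) (t : ℕ) :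
    (q : ℤ_[p]) ∣ DD p (q * t) := by
  have h0 : (q : ℤ_[p]) ∣ DD p q := by
    have := mu_add_DD hq
    rwa [mu_odd h2 hodd, zero_add] at this
  induction t with
  | zero => simp [DD]
  | succ t ih =>
    have h1 : DD p (q * (t + 1)) =
        DD p (q * t) + ∑ k ∈ range q, (-1) ^ (q * t + k) * io p (q * t + k) ^ 2 := by
      unfold DD
      rw [Nat.mul_succ, sum_range_add]
    have h3 : (q : ℤ_[p]) ∣ ∑ k ∈ range q,
        ((-1) ^ (q * t + k) * io p (q * t + k) ^ 2 - (-1) ^ (q * t) * ((-1) ^ k * io p k ^ 2)) := by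
      refine dvd_sum fun k _ => ?_
      have e := io_add (dvd_mul_of_dvd_left hq t) k
      push_cast at e
      refine ⟨- (-1) ^ (q * t + k) * t * io p k * io p (q * t + k) * (io p k + io p (q * t + k)), ?_⟩
      rw [pow_add]
      generalize io p (q * t + k) = v at e ⊢
      generalize io p k = u at e ⊢
      linear_combination ((-1) ^ (q * t) * (-1) ^ k * (u + v)) * e
    rw [sum_sub_distrib, ← mul_sum] at h3
    have h4 := dvd_add (dvd_add ih h3) (dvd_mul_of_dvd_right h0 ((-1) ^ (q * t)))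
    rw [h1]
    convert h4 using 1
    unfold DD
    ring

lemma dvd_mu (h2 : p ≠ 2) (N : ℕ) : (N : ℤ_[p]) ∣ mu p N := by
  rcases Nat.eq_zero_or_pos N with rfl | hN
  · simp [mu, io_of_dvd (dvd_zero p)]
  obtain ⟨s, m, hm, rfl⟩ := Nat.exists_eq_pow_mul_and_not_dvd hN.ne' p hp.out.ne_one
  rcases Nat.eq_zero_or_pos s with rfl | hs
  · simp only [pow_zero, one_mul]
    exact (isUnit_natCast hm).dvd
  have hq : p ∣ p ^ s := dvd_pow_self p hs.ne'
  have hodd : Odd (p ^ s) := (hp.out.odd_of_ne_two h2).pow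
  have h1 := DD_mul h2 hq hodd m
  have h3 := mu_add_DD (dvd_mul_of_dvd_left hq m)
  have h4 : ((p ^ s : ℕ) : ℤ_[p]) ∣ mu p (p ^ s * m) := by
    have h5 : ((p ^ s : ℕ) : ℤ_[p]) ∣ ((p ^ s * m : ℕ) : ℤ_[p]) :=
      Nat.cast_dvd_cast (dvd_mul_right _ _)
    have := dvd_sub (h5.trans h3) h1
    simpa using this
  rw [Nat.cast_mul]
  exact ((isUnit_natCast hm).mul_right_dvd).2 h4

end Pool.Agent.MP_ec1b19_nt.H49
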