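import Mathlib
import Pool.Agent.MP_ec1b19_nt.H49.Padic

set_option autoImplicit false

namespace Pool.Agent.MP_ec1b19_nt.H49

open Finset

variable {p : ℕ} [hp : Fact p.Prime]

/-- Product of the integers below `N` that are prime to `p`. -/
def PP (p N : ℕ) : ℕ := ∏ k ∈ range N, if p ∣ k then 1 else k

omit hp in
lemma PP_ne_zero (N : ℕ) : PP p N ≠ 0 := by
  unfold PP
  rw [prod_ne_zero_iff]
  intro k _
  split_ifs with h
  · exact one_ne_zero
  · rintro rfl; exact h (dvd_zero p)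

omit hp in
lemma fact_eq (N : ℕ) : N.factorial = p ^ (N / p) * (N / p).factorial * PP p (N + 1) := by
  induction N with
  | zero => simp [PP]
  | succ N ih =>
    have h1 : PP p (N + 1 + 1) = PP p (N + 1) * if p ∣ N + 1 then 1 else N + 1 := by
      unfold PP; rw [prod_range_succ]
    rw [Nat.factorial_succ, h1, Nat.succ_div]
    split_ifs with h
    · have h2 : N + 1 = p * (N / p + 1) := by
        have := Nat.succ_div_of_dvd h
        rw [← this, Nat.mul_div_cancel' h]
      rw [Nat.factorial_succ, pow_succ]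
      nth_rewrite 1 [ih, h2]
      ring
    · rw [add_zero]
      nth_rewrite 1 [ih]
      ring

lemma fact_mul_eq (a : ℕ) : (p * a).factorial = p ^ a * a.factorial * PP p (p * a) := by
  have h1 : PP p (p * a + 1) = PP p (p * a) := by
    unfold PP; rw [prod_range_succ, if_pos (dvd_mul_right p a), mul_one]
  have := fact_eq (p := p) (p * a)
  rwa [Nat.mul_div_cancel_left _ hp.out.pos, h1] at this

lemma choose_PP (b c : ℕ) :
    (p * (b + c)).choose (p * b) * PP p (p * b) * PP p (p * c) =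
      (b + c).choose b * PP p (p * (b + c)) := by
  have h1 : (p * (b + c)).choose (p * b) * (p * b).factorial * (p * c).factorial =
      (p * (b + c)).factorial := by
    have := Nat.choose_mul_factorial_mul_factorial (n := p * (b + c)) (k := p * b)
      (Nat.mul_le_mul_left p (Nat.le_add_right b c))
    rwa [show p * (b + c) - p * b = p * c by rw [mul_add]; omega] at this
  have h2 : (b + c).choose b * b.factorial * c.factorial = (b + c).factorial := by
    have := Nat.choose_mul_factorial_mul_factorial (n := b + c) (k := b) (Nat.le_add_right b c)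
    rwa [show b + c - b = c by omega] at this
  rw [fact_mul_eq b, fact_mul_eq c, fact_mul_eq (b + c), ← h2, pow_add] at h1
  have hne : p ^ b * p ^ c * b.factorial * c.factorial ≠ 0 := by
    have := hp.out.pos
    positivity
  apply Nat.eq_of_mul_eq_mul_left (Nat.pos_of_ne_zero hne)
  linear_combination h1

/-- The Jacobsthal ratio. -/
noncomputable def RR (p : ℕ) [Fact p.Prime] (b c : ℕ) : ℤ_[p] :=
  ∏ k ∈ range (p * b), (1 + ((p * c : ℕ) : ℤ_[p]) * io p k)

lemma choose_eq_RR (b c : ℕ) :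
    (((p * (b + c)).choose (p * b) : ℕ) : ℤ_[p]) = ((b + c).choose b : ℕ) * RR p b c := by
  have h1 := congrArg (Nat.cast : ℕ → ℤ_[p]) (choose_PP (p := p) b c)
  have h2 : ((PP p (p * (b + c)) : ℕ) : ℤ_[p]) = PP p (p * c) * (PP p (p * b) * RR p b c) := by
    unfold PP RR
    rw [show p * (b + c) = p * c + p * b by ring, prod_range_add, Nat.cast_mul]
    congr 1
    rw [Nat.cast_prod, Nat.cast_prod, ← prod_mul_distrib]
    refine prod_congr rfl fun k _ => ?_
    by_cases hk : p ∣ k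
    · rw [if_pos hk, if_pos (dvd_add (dvd_mul_right p c) hk), io_of_dvd hk]; simp
    · rw [if_neg hk, if_neg (fun h => hk ((Nat.dvd_add_right (dvd_mul_right p c)).1 h))]
      have := mul_io hk
      push_cast
      linear_combination (-(p * c : ℤ_[p])) * this
  rw [Nat.cast_mul, Nat.cast_mul, Nat.cast_mul, h2] at h1
  have hb : ((PP p (p * b) : ℕ) : ℤ_[p]) ≠ 0 := Nat.cast_ne_zero.2 (PP_ne_zero _)
  have hc : ((PP p (p * c) : ℕ) : ℤ_[p]) ≠ 0 := Nat.cast_ne_zero.2 (PP_ne_zero _)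
  apply mul_right_cancel₀ (mul_ne_zero hb hc)
  linear_combination h1

lemma prod_one_add_expand {R ι : Type*} [CommRing R] (s : Finset ι) (x : R) (u : ι → R) :
    ∃ w, ∏ k ∈ s, (1 + x * u k) = 1 + x * ∑ k ∈ s, u k + x ^ 2 * w := by
  classical
  induction s using Finset.induction_on with
  | empty => exact ⟨0, by simp⟩
  | insert a s ha ih =>
    obtain ⟨w, hw⟩ := ih
    refine ⟨w + u a * ∑ k ∈ s, u k + x * u a * w, ?_⟩
    rw [prod_insert ha, sum_insert ha, hw]
    ring

lemma RR_sq (b c : ℕ) : ∃ w1 w2 : ℤ_[p], RR p b c ^ 2 =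
    1 + (p ^ 2 * (b + c) * c) * (-b * H2 p p + p * b * w1) + (p ^ 2 * (b + c) * c) ^ 2 * w2 := by
  have h1 : RR p b c = ∏ k ∈ range (p * b + 1), (1 + ((p * c : ℕ) : ℤ_[p]) * io p k) := by
    rw [prod_range_succ, io_of_dvd (dvd_mul_right p b)]; simp [RR]
  have h2 : RR p b c = ∏ k ∈ range (p * b + 1), (1 + ((p * c : ℕ) : ℤ_[p]) * io p (p * b - k)) := by
    rw [h1, ← prod_range_reflect]
    simp only [Nat.add_sub_cancel]
  have h3 : RR p b c ^ 2 = ∏ k ∈ range (p * b + 1),
      (1 + (p ^ 2 * (b + c) * c : ℤ_[p]) * (io p k * io p (p * b - k))) := by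
    rw [sq]
    nth_rewrite 1 [h1]
    rw [h2, ← prod_mul_distrib]
    refine prod_congr rfl fun k hk => ?_
    have hk' : k + (p * b - k) = p * b := by rw [mem_range] at hk; omega
    have e := io_refl (p := p) (k := k) (l := p * b - k) (by rw [hk']; exact dvd_mul_right p b)
    rw [hk'] at e
    push_cast at e ⊢
    linear_combination (p * c : ℤ_[p]) * e
  obtain ⟨w2, hw2⟩ := prod_one_add_expand (range (p * b + 1)) (p ^ 2 * (b + c) * c : ℤ_[p])
    (fun k => io p k * io p (p * b - k))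
  have h4 : ∑ k ∈ range (p * b + 1), io p k * io p (p * b - k) =
      - H2 p (p * b) + p * b * ∑ k ∈ range (p * b + 1), io p k ^ 2 * io p (p * b - k) := by
    have : H2 p (p * b) = ∑ k ∈ range (p * b + 1), io p k ^ 2 := by
      rw [sum_range_succ, io_of_dvd (dvd_mul_right p b)]; simp [H2]
    rw [this, mul_sum, ← sum_neg_distrib, ← sum_add_distrib]
    refine sum_congr rfl fun k hk => ?_
    have hk' : k + (p * b - k) = p * b := by rw [mem_range] at hk; omega
    have e := io_refl (p := p) (k := k) (l := p * b - k) (by rw [hk']; exact dvd_mul_right p b)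
    rw [hk'] at e
    push_cast at e ⊢
    linear_combination (io p k) * e
  obtain ⟨w1, hw1⟩ := H2_main (p := p) b
  refine ⟨-w1 + ∑ k ∈ range (p * b + 1), io p k ^ 2 * io p (p * b - k), w2, ?_⟩
  rw [h3, hw2, h4]
  push_cast at hw1
  linear_combination (-(p ^ 2 * (b + c) * c : ℤ_[p])) * hw1

lemma RR_mod (b c : ℕ) : (p : ℤ_[p]) ∣ RR p b c - 1 := by
  obtain ⟨w, hw⟩ := prod_one_add_expand (range (p * b)) ((p * c : ℕ) : ℤ_[p]) (io p)
  refine ⟨c * ∑ k ∈ range (p * b), io p k + p * c ^ 2 * w, ?_⟩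
  unfold RR
  rw [hw]
  push_cast
  ring

/-- The leading constant in Jacobsthal's congruence. -/
noncomputable def kap (p : ℕ) [Fact p.Prime] : ℤ_[p] := - p ^ 2 * H2 p p * io p 2

lemma kap_dvd : (p : ℤ_[p]) ^ 2 ∣ kap p := ⟨- H2 p p * io p 2, by unfold kap; ring⟩

lemma kap_dvd3 (h2 : p ≠ 2) : (p : ℤ_[p]) ^ 3 ∣ 3 * kap p := by
  obtain ⟨w, hw⟩ := three_H2 h2
  refine ⟨- w * io p 2, ?_⟩
  unfold kap
  linear_combination (- p ^ 2 * io p 2) * hw

lemma RR_jac (h2 : p ≠ 2) (b c : ℕ) (hbc : (b : ℤ_[p]) ∣ c) :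
    ∃ w : ℤ_[p], RR p b c = 1 + (kap p + p ^ 3 * w) * ((b + c) * b * c) := by
  obtain ⟨w1, w2, h⟩ := RR_sq (p := p) b c
  obtain ⟨d, hd⟩ := hbc
  obtain ⟨e, he⟩ := RR_mod (p := p) b c
  have ht := two_unit h2
  have hu : IsUnit (RR p b c + 1) := by
    rw [isUnit_iff_not_dvd]
    intro h'
    have h3 : (p : ℤ_[p]) ∣ 2 := by
      have := dvd_sub h' ⟨e, he⟩
      rwa [show RR p b c + 1 - (RR p b c - 1) = 2 by ring] at this
    have h4 : (p : ℤ_[p]) ∣ ((2 : ℕ) : ℤ_[p]) := by exact_mod_cast h3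
    rw [natCast_dvd_iff] at h4
    exact h2 ((Nat.prime_dvd_prime_iff_eq hp.out Nat.prime_two).1 h4)
  obtain ⟨v, hv⟩ := hu.exists_right_inv
  have h5 : RR p b c ^ 2 = 1 + ((b + c) * b * c) *
      (- p ^ 2 * H2 p p + p ^ 3 * (w1 + p * (b + c) * d * w2)) := by
    rw [h]
    linear_combination (p ^ 4 * (b + c) ^ 2 * c * w2 : ℤ_[p]) * hd
  have h6 : v = io p 2 - p * (v * io p 2 * e) := by
    linear_combination (io p 2) * hv - v * ht - (v * io p 2) * he
  refine ⟨H2 p p * (v * io p 2 * e) + (w1 + p * (b + c) * d * w2) * v, ?_⟩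
  unfold kap
  linear_combination v * h5 - (RR p b c - 1) * hv -
    ((b + c) * b * c * p ^ 2 * H2 p p : ℤ_[p]) * h6

theorem jacobsthal (h2 : p ≠ 2) (b c : ℕ) : ∃ w : ℤ_[p],
    (((p * (b + c)).choose (p * b) : ℕ) : ℤ_[p]) =
      ((b + c).choose b : ℕ) * (1 + (kap p + p ^ 3 * w) * ((b + c) * b * c)) := by
  rcases ValuationRing.dvd_total (b : ℤ_[p]) (c : ℤ_[p]) with h | h
  · obtain ⟨w, hw⟩ := RR_jac h2 b c h
    exact ⟨w, by rw [choose_eq_RR, hw]⟩
  · obtain ⟨w, hw⟩ := RR_jac h2 c b h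
    refine ⟨w, ?_⟩
    have e1 : (p * (b + c)).choose (p * b) = (p * (c + b)).choose (p * c) := by
      rw [mul_add, mul_add, add_comm (p * c), Nat.choose_symm_add]
    have e2 : (b + c).choose b = (c + b).choose c := by
      rw [add_comm c, Nat.choose_symm_add]
    rw [e1, e2, choose_eq_RR, hw]
    ring

end Pool.Agent.MP_ec1b19_nt.H49
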