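import Mathlib
import Pool.Agent.MP_ec1b19_nt.H49.Padic

set_option autoImplicit false

namespace Pool.Agent.MP_ec1b19_nt.H49

open Finset

lemma alt_choose {R : Type*} [CommRing R] (u k : ℕ) :
    ∑ x ∈ HasAntidiagonal.antidiagonal k, (((u + 1).choose x.1 : ℕ) : R) * (-1) ^ x.2 =
      (u.choose k : ℕ) := by
  induction k with
  | zero => simp
  | succ k ih =>
    rw [Finset.Nat.sum_antidiagonal_succ']
    simp only [pow_zero, mul_one, pow_succ, mul_neg, sum_neg_distrib]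
    rw [ih, Nat.choose_succ_succ']
    push_cast
    ring

section abstract

variable {R : Type*} [CommRing R] {p : ℕ} {ι : ℕ → R}

lemma mul_choose_zero {u : ℕ} (hu : ((u + 1 : ℕ) : R) = 0) (j : ℕ) :
    (j : R) * ((u + 1).choose j : ℕ) = 0 := by
  rcases j with _ | j
  · simp
  · have := congrArg (Nat.cast : ℕ → R) (Nat.add_one_mul_choose_eq u j)
    rw [Nat.cast_mul, Nat.cast_mul, hu, zero_mul] at this
    rw [mul_comm, ← this]

lemma choose_mul_iota (h1 : ∀ k, p ∣ k → ι k = 0) (h2 : ∀ k, ¬ p ∣ k → (k : R) * ι k = 1)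
    {e : R} {j : ℕ} (he : (j : R) * e = 0) (i : ℕ) : e * ι i = e * ι (j + i) := by
  by_cases hj : p ∣ j
  · by_cases hi : p ∣ i
    · rw [h1 i hi, h1 _ (dvd_add hj hi)]
    · have e1 := h2 i hi
      have e2 := h2 (j + i) (fun h => hi ((Nat.dvd_add_right hj).1 h))
      push_cast at e2
      linear_combination (-(e * ι i)) * e2 + (e * ι (j + i)) * e1 + (ι i * ι (j + i)) * he
  · have e1 := h2 j hj
    have : e = 0 := by linear_combination (ι j) * he - e * e1
    rw [this]; simp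

lemma conv_coeff (h1 : ∀ k, p ∣ k → ι k = 0) (h2 : ∀ k, ¬ p ∣ k → (k : R) * ι k = 1)
    {u : ℕ} (hu : ((u + 1 : ℕ) : R) = 0) (ε : R) (k : ℕ) :
    ∑ x ∈ HasAntidiagonal.antidiagonal k,
      (ε ^ x.1 * ((u + 1).choose x.1 : ℕ)) * (ε ^ x.2 * (-(-1) ^ x.2 * ι x.2)) =
      ε ^ k * (ι k * (u.choose (k - 1) : ℕ)) := by
  have e1 : ∀ x ∈ HasAntidiagonal.antidiagonal k,
      (ε ^ x.1 * ((u + 1).choose x.1 : ℕ)) * (ε ^ x.2 * (-(-1) ^ x.2 * ι x.2)) =
      (-(ε ^ k * ι k)) * ((((u + 1).choose x.1 : ℕ) : R) * (-1) ^ x.2) := by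
    intro x hx
    rw [HasAntidiagonal.mem_antidiagonal] at hx
    have := choose_mul_iota h1 h2 (mul_choose_zero hu x.1) x.2
    rw [hx] at this
    rw [← hx, pow_add, hx]
    linear_combination (-(ε ^ x.1 * ε ^ x.2 * (-1) ^ x.2)) * this
  rw [sum_congr rfl e1, ← mul_sum, alt_choose]
  rcases k with _ | k
  · rw [h1 0 (dvd_zero p)]; simp
  · have e2 := choose_mul_iota h1 h2 (mul_choose_zero hu (k + 1)) 0
    rw [h1 0 (dvd_zero p), add_zero, Nat.choose_succ_succ'] at e2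
    push_cast at e2
    simp only [Nat.add_sub_cancel]
    linear_combination (ε ^ (k + 1)) * e2

lemma key_abstract (h1 : ∀ k, p ∣ k → ι k = 0) (h2 : ∀ k, ¬ p ∣ k → (k : R) * ι k = 1)
    (h3 : ∀ N : ℕ, (N : R) ∣ ∑ x ∈ HasAntidiagonal.antidiagonal N, (-1) ^ x.1 * ι x.1 * ι x.2)
    {u v c : ℕ} (hu : ((u + 1 : ℕ) : R) = 0) (hv : ((v + 1 : ℕ) : R) = 0) (hc : (c : R) = 0) :
    ∑ x ∈ HasAntidiagonal.antidiagonal c,
      ((-1) ^ x.1 * (ι x.1 * (u.choose (x.1 - 1) : ℕ))) * (ι x.2 * (v.choose (x.2 - 1) : ℕ)) = 0 := by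
  let E : R → ℕ → PowerSeries R := fun ε u => PowerSeries.mk fun j => ε ^ j * ((u + 1).choose j : ℕ)
  let L : R → PowerSeries R := fun ε => PowerSeries.mk fun i => ε ^ i * (-(-1) ^ i * ι i)
  have hA : ∀ k, PowerSeries.coeff k (E (-1) u * L (-1)) =
      (-1) ^ k * (ι k * (u.choose (k - 1) : ℕ)) := by
    intro k
    rw [PowerSeries.coeff_mul]
    simp only [E, L, PowerSeries.coeff_mk]
    exact conv_coeff h1 h2 hu (-1) k
  have hB : ∀ k, PowerSeries.coeff k (E 1 v * L 1) = ι k * (v.choose (k - 1) : ℕ) := by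
    intro k
    rw [PowerSeries.coeff_mul]
    simp only [E, L, PowerSeries.coeff_mk]
    rw [conv_coeff h1 h2 hv 1 k, one_pow, one_mul]
  have hF : ∀ j : ℕ, (j : R) * PowerSeries.coeff j (E (-1) u * E 1 v) = 0 := by
    intro j
    rw [PowerSeries.coeff_mul, mul_sum]
    refine sum_eq_zero fun x hx => ?_
    rw [HasAntidiagonal.mem_antidiagonal] at hx
    simp only [E, PowerSeries.coeff_mk]
    have e1 := mul_choose_zero hu x.1
    have e2 := mul_choose_zero hv x.2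
    rw [← hx]
    push_cast
    linear_combination ((-1) ^ x.1 * 1 ^ x.2 * ((v + 1).choose x.2 : ℕ) : R) * e1 +
      ((-1) ^ x.1 * 1 ^ x.2 * ((u + 1).choose x.1 : ℕ) : R) * e2
  have hM : ∀ N : ℕ, (N : R) ∣ PowerSeries.coeff N (L (-1) * L 1) := by
    intro N
    rw [PowerSeries.coeff_mul, ← Finset.Nat.sum_antidiagonal_swap]
    convert h3 N using 2 with x _
    simp only [L, PowerSeries.coeff_mk, Prod.fst_swap, Prod.snd_swap, one_pow]
    have e2 : (-1 : R) ^ x.2 * (-1) ^ x.2 = 1 := by rw [← mul_pow]; simp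
    linear_combination ((-1) ^ x.1 * ι x.1 * ι x.2) * e2
  simp only [← hA, ← hB]
  rw [← PowerSeries.coeff_mul (R := R) c (E (-1) u * L (-1)) (E 1 v * L 1),
    show E (-1) u * L (-1) * (E 1 v * L 1) = (E (-1) u * E 1 v) * (L (-1) * L 1) by ring,
    PowerSeries.coeff_mul]
  refine sum_eq_zero fun x hx => ?_
  rw [HasAntidiagonal.mem_antidiagonal] at hx
  obtain ⟨w, hw⟩ := hM x.2
  have e1 := hF x.1
  rw [← hx] at hc
  push_cast at hc
  rw [hw]
  linear_combination (PowerSeries.coeff x.1 (E (-1) u * E 1 v) * w) * hc - w * e1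

end abstract

variable {p : ℕ} [hp : Fact p.Prime]

lemma choose_eq_io {u k : ℕ} (hk : ¬ p ∣ k) :
    (((u + 1).choose k : ℕ) : ℤ_[p]) = ((u + 1 : ℕ) : ℤ_[p]) * (io p k * (u.choose (k - 1) : ℕ)) := by
  rcases k with _ | k
  · exact absurd (dvd_zero p) hk
  · have e1 := congrArg (Nat.cast : ℕ → ℤ_[p]) (Nat.add_one_mul_choose_eq u k)
    rw [Nat.cast_mul, Nat.cast_mul] at e1
    have e2 := mul_io hk
    simp only [Nat.add_sub_cancel]
    linear_combination (-io p (k + 1)) * e1 - (((u + 1).choose (k + 1) : ℕ) : ℤ_[p]) * e2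

theorem key (h2 : p ≠ 2) {u v c : ℕ} (hpc : p ∣ c) (g : ℤ_[p]) (hu : g ∣ u) (hv : g ∣ v)
    (hc : g ∣ c) :
    (u : ℤ_[p]) * v * g ∣ ∑ x ∈ HasAntidiagonal.antidiagonal c,
      (if p ∣ x.1 then 0 else ((-1) ^ x.1 * (u.choose x.1 : ℕ) * (v.choose x.2 : ℕ) : ℤ_[p])) := by
  rcases u with _ | u
  · rw [sum_eq_zero]
    · exact dvd_zero _
    intro x _
    split_ifs with h
    · rfl
    · rw [Nat.choose_eq_zero_of_lt (Nat.pos_of_ne_zero (by rintro h'; exact h (h' ▸ dvd_zero p)))]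
      simp
  rcases v with _ | v
  · rw [sum_eq_zero]
    · exact dvd_zero _
    intro x hx
    rw [HasAntidiagonal.mem_antidiagonal] at hx
    split_ifs with h
    · rfl
    · have : 0 < x.2 := by
        apply Nat.pos_of_ne_zero
        intro h'
        rw [h', add_zero] at hx
        exact h (hx ▸ hpc)
      rw [Nat.choose_eq_zero_of_lt this]
      simp
  have e1 : ∑ x ∈ HasAntidiagonal.antidiagonal c,
      (if p ∣ x.1 then 0 else
        ((-1) ^ x.1 * ((u + 1).choose x.1 : ℕ) * ((v + 1).choose x.2 : ℕ) : ℤ_[p])) =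
      ((u + 1 : ℕ) : ℤ_[p]) * ((v + 1 : ℕ) : ℤ_[p]) * ∑ x ∈ HasAntidiagonal.antidiagonal c,
      ((-1) ^ x.1 * (io p x.1 * (u.choose (x.1 - 1) : ℕ))) *
        (io p x.2 * (v.choose (x.2 - 1) : ℕ)) := by
    rw [mul_sum]
    refine sum_congr rfl fun x hx => ?_
    rw [HasAntidiagonal.mem_antidiagonal] at hx
    split_ifs with h
    · rw [io_of_dvd h]; simp
    · have h' : ¬ p ∣ x.2 := fun h' => h ((Nat.dvd_add_left h').1 (hx ▸ hpc))
      rw [choose_eq_io h, choose_eq_io h']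
      ring
  rw [e1]
  apply mul_dvd_mul_left
  rw [← Ideal.mem_span_singleton, ← Ideal.Quotient.eq_zero_iff_mem]
  set φ := Ideal.Quotient.mk (Ideal.span {g}) with hφ
  have hz : ∀ n : ℕ, g ∣ (n : ℤ_[p]) → ((n : ℕ) : ℤ_[p] ⧸ Ideal.span {g}) = 0 := by
    intro n hn
    rw [← map_natCast φ, hφ, Ideal.Quotient.eq_zero_iff_mem, Ideal.mem_span_singleton]
    exact hn
  have := key_abstract (R := ℤ_[p] ⧸ Ideal.span {g}) (p := p) (ι := fun k => φ (io p k))
    (fun k hk => by simp only [io_of_dvd hk, map_zero])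
    (fun k hk => by rw [← map_natCast φ, ← map_mul, mul_io hk, map_one])
    (fun N => by
      have := map_dvd φ (dvd_mu h2 N)
      unfold mu at this
      simpa only [map_natCast, map_sum, map_mul, map_pow, map_neg, map_one] using this)
    (hz _ hu) (hz _ hv) (hz _ hc)
  simpa only [map_natCast, map_sum, map_mul, map_pow, map_neg, map_one] using this

end Pool.Agent.MP_ec1b19_nt.H49
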