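import Mathlib

set_option autoImplicit false

namespace Pool.Agent.MP_ec1b19_nt.H49

open Finset

lemma choose_up (k i : ℕ) :
    (k.choose i : ℚ) = ((k + 1).choose i : ℕ) * ((k : ℚ) + 1 - i) / (k + 1) := by
  rw [eq_div_iff (by positivity)]
  rcases le_or_gt i (k + 1) with h | h
  · have := congrArg (Nat.cast : ℕ → ℚ) (Nat.choose_mul_succ_eq k i)
    rw [Nat.cast_mul, Nat.cast_mul, Nat.cast_sub h] at this
    push_cast at this ⊢
    exact this
  · rw [Nat.choose_eq_zero_of_lt h, Nat.choose_eq_zero_of_lt (by omega)]; simp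

lemma choose_right (k i : ℕ) :
    (k.choose (i + 1) : ℚ) = (k.choose i : ℕ) * ((k : ℚ) - i) / (i + 1) := by
  rw [eq_div_iff (by positivity)]
  rcases le_or_gt i k with h | h
  · have := congrArg (Nat.cast : ℕ → ℚ) (Nat.choose_succ_right_eq k i)
    rw [Nat.cast_mul, Nat.cast_mul, Nat.cast_sub h] at this
    push_cast at this ⊢
    exact this
  · rw [Nat.choose_eq_zero_of_lt h, Nat.choose_eq_zero_of_lt (by omega)]; simp

lemma central_up (i : ℕ) :
    (((2 * (i + 1)).choose (i + 1) : ℕ) : ℚ) = ((2 * i).choose i : ℕ) * (2 * (2 * i + 1)) / (i + 1) := by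
  rw [eq_div_iff (by positivity)]
  have := congrArg (Nat.cast : ℕ → ℚ) (Nat.succ_mul_centralBinom_succ i)
  unfold Nat.centralBinom at this
  push_cast at this ⊢
  linear_combination this

/-- Summand of the auxiliary sequence `1, 3, 15, 93, ...`. -/
def ss (k i : ℕ) : ℚ := (k.choose i : ℚ) ^ 2 * ((2 * i).choose i : ℕ)

/-- The auxiliary sequence `1, 3, 15, 93, ...`. -/
def cs (k : ℕ) : ℚ := ∑ i ∈ range (k + 1), ss k i

lemma cs_ext (k N : ℕ) (h : k + 1 ≤ N) : cs k = ∑ i ∈ range N, ss k i := by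
  unfold cs
  refine sum_subset (range_subset_range.2 h) fun i _ hi => ?_
  rw [mem_range] at hi
  unfold ss
  rw [Nat.choose_eq_zero_of_lt (by omega)]; simp

lemma cs_rec (k : ℕ) : ((k : ℚ) + 2) ^ 2 * cs (k + 2) - (10 * k ^ 2 + 30 * k + 23) * cs (k + 1) +
    9 * (k + 1) ^ 2 * cs k = 0 := by
  let G : ℕ → ℚ := fun i => (i : ℚ) ^ 3 * (3 * i - 4 * k - 8) / (k + 2) ^ 2 * ss (k + 2) i
  have h := sum_range_sub G (k + 3)
  have h0 : G 0 = 0 := by simp [G]
  have h1 : G (k + 3) = 0 := by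
    simp only [G, ss]
    rw [Nat.choose_eq_zero_of_lt (by omega)]; simp
  rw [h0, h1, sub_zero] at h
  rw [cs_ext (k + 2) (k + 3) (by omega), cs_ext (k + 1) (k + 3) (by omega),
    cs_ext k (k + 3) (by omega), mul_sum, mul_sum, mul_sum, ← sum_sub_distrib, ← sum_add_distrib, ← h]
  refine sum_congr rfl fun i _ => ?_
  simp only [G, ss]
  rw [choose_up k i, choose_up (k + 1) i, choose_right (k + 2) i, central_up]
  push_cast
  field_simp
  ring

/-- Kernel of the transformation. -/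
def UU (n k : ℕ) : ℚ :=
  if k ≤ n then (-9) ^ (n - k) * ((n + k).factorial / ((n - k).factorial * (k.factorial : ℚ) ^ 2))
  else 0

lemma UU_up (n k : ℕ) : UU n k = UU (n + 1) k * ((n : ℚ) + 1 - k) / (-9 * (n + 1 + k)) := by
  have hne : (-9 * ((n : ℚ) + 1 + k)) ≠ 0 := by
    have : (0 : ℚ) < n + 1 + k := by positivity
    linarith
  rw [eq_div_iff hne]
  unfold UU
  rcases lt_trichotomy k (n + 1) with h | rfl | h
  · obtain ⟨d, rfl⟩ : ∃ d, n = k + d := ⟨n - k, by omega⟩
    rw [if_pos (by omega), if_pos (by omega), show k + d - k = d by omega,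
      show k + d + 1 - k = d + 1 by omega, show k + d + 1 + k = k + d + k + 1 by omega,
      Nat.factorial_succ, Nat.factorial_succ]
    push_cast
    field_simp
    ring
  · rw [if_neg (by omega)]; simp
  · rw [if_neg (by omega), if_neg (by omega)]; simp

lemma UU_right (n k : ℕ) :
    UU n (k + 1) = UU n k * (((n : ℚ) + k + 1) * (n - k)) / (-9 * (k + 1) ^ 2) := by
  have hne : (-9 * ((k : ℚ) + 1) ^ 2) ≠ 0 := by
    have : (0 : ℚ) < (k + 1) ^ 2 := by positivity
    linarith
  rw [eq_div_iff hne]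
  unfold UU
  rcases lt_trichotomy k n with h | rfl | h
  · obtain ⟨d, rfl⟩ : ∃ d, n = k + 1 + d := ⟨n - (k + 1), by omega⟩
    rw [if_pos (by omega), if_pos (by omega), show k + 1 + d - (k + 1) = d by omega,
      show k + 1 + d - k = d + 1 by omega, show k + 1 + d + (k + 1) = k + 1 + d + k + 1 by omega,
      Nat.factorial_succ (k + 1 + d + k), Nat.factorial_succ d, Nat.factorial_succ k]
    push_cast
    field_simp
    ring
  · rw [if_neg (by omega)]; simp
  · rw [if_neg (by omega), if_neg (by omega)]; simp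

/-- The transformed sequence. -/
def ZA (n : ℕ) : ℚ := ∑ k ∈ range (n + 1), UU n k * cs k

lemma ZA_ext (n N : ℕ) (h : n + 1 ≤ N) : ZA n = ∑ k ∈ range N, UU n k * cs k := by
  unfold ZA
  refine sum_subset (range_subset_range.2 h) fun i _ hi => ?_
  rw [mem_range] at hi
  unfold UU
  rw [if_neg (by omega), zero_mul]

lemma ZA_rec (n : ℕ) : ((n : ℚ) + 2) ^ 3 * ZA (n + 2) +
    (2 * n + 3) * (7 * n ^ 2 + 21 * n + 17) * ZA (n + 1) + 81 * (n + 1) ^ 3 * ZA n = 0 := by
  let G : ℕ → ℚ := fun k => -(2 * (2 * n + 3)) * (k : ℚ) ^ 2 *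
    (UU (n + 1) (k - 1) * cs k - 9 * UU (n + 1) k * cs (k - 1))
  have h := sum_range_sub G (n + 3)
  have h0 : G 0 = 0 := by simp [G]
  have h1 : G (n + 3) = 0 := by
    simp only [G, UU]
    rw [if_neg (by omega), if_neg (by omega)]; simp
  rw [h0, h1, sub_zero] at h
  rw [ZA_ext (n + 2) (n + 3) (by omega), ZA_ext (n + 1) (n + 3) (by omega),
    ZA_ext n (n + 3) (by omega), mul_sum, mul_sum, mul_sum, ← sum_add_distrib, ← sum_add_distrib, ← h]
  refine sum_congr rfl fun k _ => ?_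
  simp only [G, Nat.add_sub_cancel]
  rcases k with _ | k
  · have c0 : cs 0 = 1 := by simp [cs, ss]
    have c1 : cs (0 + 1) = 3 := by simp [cs, ss, sum_range_succ]; norm_num
    rw [c0, c1, UU_right (n + 1) 0, UU_up n 0, UU_up (n + 1) 0]
    push_cast
    field_simp
    ring
  · have c2 : cs (k + 1 + 1) = ((10 * k ^ 2 + 30 * k + 23) * cs (k + 1) - 9 * (k + 1) ^ 2 * cs k) /
        ((k : ℚ) + 2) ^ 2 := by
      rw [eq_div_iff (by positivity)]
      linear_combination cs_rec k
    rw [c2, Nat.add_sub_cancel, UU_right (n + 1) (k + 1), UU_up n (k + 1), UU_up (n + 1) (k + 1),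
      UU_right (n + 1 + 1) k, UU_up (n + 1) k]
    push_cast
    field_simp
    ring

/-- Summand of the Almkvist-Zudilin numbers. -/
def tt (n k : ℕ) : ℚ :=
  if 3 * k ≤ n then
    (-3) ^ (n - 3 * k) * ((n + k).factorial / ((n - 3 * k).factorial * (k.factorial : ℚ) ^ 4))
  else 0

lemma tt_up (n k : ℕ) : tt n k = tt (n + 1) k * ((n : ℚ) + 1 - 3 * k) / (-3 * (n + 1 + k)) := by
  have hne : (-3 * ((n : ℚ) + 1 + k)) ≠ 0 := by
    have : (0 : ℚ) < n + 1 + k := by positivity
    linarith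
  rw [eq_div_iff hne]
  unfold tt
  rcases lt_trichotomy (3 * k) (n + 1) with h | h | h
  · obtain ⟨d, rfl⟩ : ∃ d, n = 3 * k + d := ⟨n - 3 * k, by omega⟩
    rw [if_pos (by omega), if_pos (by omega), show 3 * k + d - 3 * k = d by omega,
      show 3 * k + d + 1 - 3 * k = d + 1 by omega, show 3 * k + d + 1 + k = 3 * k + d + k + 1 by omega,
      Nat.factorial_succ, Nat.factorial_succ]
    push_cast
    field_simp
    ring
  · have : (n : ℚ) + 1 - 3 * k = 0 := by
      have := congrArg (Nat.cast : ℕ → ℚ) h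
      push_cast at this
      linarith
    rw [if_neg (by omega), this]; simp
  · rw [if_neg (by omega), if_neg (by omega)]; simp

lemma tt_right (n k : ℕ) :
    tt n (k + 1) = tt n k * (((n : ℚ) + k + 1) * (n - 3 * k) * (n - 3 * k - 1) * (n - 3 * k - 2)) /
      (-27 * (k + 1) ^ 4) := by
  have hne : (-27 * ((k : ℚ) + 1) ^ 4) ≠ 0 := by
    have : (0 : ℚ) < (k + 1) ^ 4 := by positivity
    linarith
  rw [eq_div_iff hne]
  unfold tt
  by_cases h : 3 * (k + 1) ≤ n
  · obtain ⟨d, rfl⟩ : ∃ d, n = 3 * (k + 1) + d := ⟨n - 3 * (k + 1), by omega⟩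
    rw [if_pos (by omega), if_pos (by omega), show 3 * (k + 1) + d - 3 * (k + 1) = d by omega,
      show 3 * (k + 1) + d - 3 * k = d + 1 + 1 + 1 by omega,
      show 3 * (k + 1) + d + (k + 1) = 3 * (k + 1) + d + k + 1 by omega,
      Nat.factorial_succ (3 * (k + 1) + d + k), Nat.factorial_succ (d + 1 + 1),
      Nat.factorial_succ (d + 1), Nat.factorial_succ d, Nat.factorial_succ k]
    push_cast
    field_simp
    ring
  · rw [if_neg h]
    by_cases h' : 3 * k ≤ n
    · have : n = 3 * k ∨ n = 3 * k + 1 ∨ n = 3 * k + 2 := by omega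
      rcases this with rfl | rfl | rfl <;> push_cast <;> ring
    · rw [if_neg h']; simp

/-- The Almkvist-Zudilin numbers as rationals. -/
def ZB (n : ℕ) : ℚ := ∑ k ∈ range (n / 3 + 1), tt n k

lemma ZB_ext (n N : ℕ) (h : n + 1 ≤ N) : ZB n = ∑ k ∈ range N, tt n k := by
  unfold ZB
  refine sum_subset (range_subset_range.2 (by omega)) fun i _ hi => ?_
  rw [mem_range] at hi
  unfold tt
  rw [if_neg (by omega)]

lemma ZB_rec (n : ℕ) : ((n : ℚ) + 2) ^ 3 * ZB (n + 2) +
    (2 * n + 3) * (7 * n ^ 2 + 21 * n + 17) * ZB (n + 1) + 81 * (n + 1) ^ 3 * ZB n = 0 := by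
  let G : ℕ → ℚ := fun k => -36 * (4 * n + 5) * (k : ℚ) ^ 4 / ((n + k + 2) * (n + k + 1)) *
    tt (n + 2) k
  have h := sum_range_sub G (n + 3)
  have h0 : G 0 = 0 := by simp [G]
  have h1 : G (n + 3) = 0 := by
    simp only [G, tt]
    rw [if_neg (by omega)]; simp
  rw [h0, h1, sub_zero] at h
  rw [ZB_ext (n + 2) (n + 3) (by omega), ZB_ext (n + 1) (n + 3) (by omega),
    ZB_ext n (n + 3) (by omega), mul_sum, mul_sum, mul_sum, ← sum_add_distrib, ← sum_add_distrib, ← h]
  refine sum_congr rfl fun k _ => ?_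
  simp only [G]
  rw [tt_right (n + 2) k, tt_up n k, tt_up (n + 1) k]
  push_cast
  field_simp
  ring

theorem ZA_eq_ZB (n : ℕ) : ZA n = ZB n := by
  induction n using Nat.twoStepInduction with
  | zero => simp [ZA, ZB, UU, tt, cs, ss]
  | one =>
    simp [ZA, ZB, UU, tt, cs, ss, sum_range_succ, Nat.factorial]
    norm_num
  | more n h1 h2 =>
    have e1 := ZA_rec n
    have e2 := ZB_rec n
    rw [h1, h2] at e1
    have hne : ((n : ℚ) + 2) ^ 3 ≠ 0 := by positivity
    apply mul_left_cancel₀ hne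
    linear_combination e1 - e2

end Pool.Agent.MP_ec1b19_nt.H49
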