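import Mathlib
import Pool.Agent.MP_ec1b19_nt.H49.Diag
import Pool.Agent.MP_ec1b19_nt.H49.Rec

set_option autoImplicit false

namespace Pool.Agent.MP_ec1b19_nt.H49

open Finset

lemma c3_eq (k : ℕ) : ((c3 k : ℤ) : ℚ) = ((2 * k).choose k : ℕ) * cs k := by
  unfold c3 cs
  rw [← sum_range_reflect (fun i => ss k i), mul_sum]
  push_cast
  refine sum_congr rfl fun a ha => ?_
  rw [mem_range] at ha
  obtain ⟨i, rfl⟩ : ∃ i, k = a + i := ⟨k - a, by omega⟩
  unfold ss
  rw [show a + i - a = i by omega,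
    Nat.cast_choose ℚ (show a ≤ 2 * (a + i) by omega),
    Nat.cast_choose ℚ (show a ≤ 2 * (a + i) - a by omega),
    Nat.cast_choose ℚ (show i ≤ 2 * i by omega),
    Nat.cast_choose ℚ (show a + i ≤ 2 * (a + i) by omega),
    Nat.cast_choose ℚ (show i ≤ a + i by omega),
    show 2 * (a + i) - a - a = 2 * i by omega, show 2 * i - i = i by omega,
    show 2 * (a + i) - (a + i) = a + i by omega, show a + i - i = a by omega]
  field_simp

lemma W_eq_ZA (n : ℕ) : ((W cc n : ℤ) : ℚ) = ZA n := by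
  rw [W_eq_sum]
  unfold ZA
  push_cast
  refine sum_congr rfl fun k hk => ?_
  rw [mem_range] at hk
  rw [c3_eq]
  unfold UU
  rw [if_pos (by omega), Nat.cast_choose ℚ (show n - k ≤ n + k by omega),
    Nat.cast_choose ℚ (show k ≤ 2 * k by omega), show n + k - (n - k) = 2 * k by omega,
    show 2 * k - k = k by omega]
  field_simp

lemma fact_dvd (d k : ℕ) : d.factorial * k.factorial ^ 4 ∣ (d + 4 * k).factorial := by
  have := Nat.prod_factorial_dvd_factorial_sum (univ : Finset (Fin 5)) ![d, k, k, k, k]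
  simp only [Fin.prod_univ_five, Fin.sum_univ_five, Matrix.cons_val_zero, Matrix.cons_val_one,
    Matrix.cons_val] at this
  rw [show d + k + k + k + k = d + 4 * k by ring] at this
  convert this using 1
  ring

theorem Z_eq_W (n : ℕ) : ∑ k ∈ Finset.range (n / 3 + 1),
    (-3 : ℤ) ^ (n - 3 * k) *
      (((Nat.factorial (n + k)) / (Nat.factorial (n - 3 * k) * (Nat.factorial k) ^ 4) : ℕ) : ℤ) =
    W cc n := by
  apply Int.cast_injective (α := ℚ)
  rw [W_eq_ZA, ZA_eq_ZB]
  unfold ZB
  rw [Int.cast_sum]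
  refine sum_congr rfl fun k hk => ?_
  rw [mem_range] at hk
  unfold tt
  have hd : (n - 3 * k).factorial * k.factorial ^ 4 ∣ (n + k).factorial := by
    have := fact_dvd (n - 3 * k) k
    rwa [show n - 3 * k + 4 * k = n + k by omega] at this
  rw [if_pos (by omega), Int.cast_mul, Int.cast_natCast, Nat.cast_div hd (by positivity)]
  push_cast
  rfl

end Pool.Agent.MP_ec1b19_nt.H49
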