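import Mathlib
import Pool.Agent.MP_ec1b19_nt.H49.Key
import Pool.Agent.MP_ec1b19_nt.H49.Mat

set_option autoImplicit false

namespace Pool.Agent.MP_ec1b19_nt.H49

open Finset

variable {p : ℕ} [hp : Fact p.Prime]

/-- Row `i` of `M` is divisible by `p`. -/
def ZR (p : ℕ) (M : Mx) (i : Fin 4) : Prop := ∀ j, p ∣ M i j

instance (p : ℕ) (M : Mx) (i : Fin 4) : Decidable (ZR p M i) := by
  unfold ZR; infer_instance

lemma sgn_sub {ε : ℤ} (h : ε * ε = 1) {a b d : ℕ} (e : a = b + d) : ε ^ d = ε ^ a * ε ^ b := by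
  rw [e, pow_add, mul_right_comm, ← mul_pow, h, one_pow, one_mul]

lemma T_pair (c : Fin 4 → Fin 4 → ℤ) (hc : ∀ i j, i ≠ j → c i j * c i j = 1)
    (hs : c 0 2 * c 0 3 * c 1 2 * c 1 3 = -1) {n u v w : ℕ} {M : Mx} (hM : M ∈ Mats n)
    (hu : u = M 2 1 + M 3 1) (hv : v = M 2 0 + M 3 0) (hw : w = M 3 0 + M 3 1) :
    T c M = (c 0 1 ^ (n - u) * c 1 0 ^ (n - v) * c 0 3 ^ u * c 1 2 ^ w * c 1 3 ^ v * c 1 3 ^ w *
      n.choose u * n.choose v * row (c 2) (M 2) * row (c 3) (M 3)) *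
      ((-1) ^ (M 0 2) * u.choose (M 0 2) * v.choose (M 1 2)) := by
  obtain ⟨⟨d0, d1, d2, d3⟩, ⟨r0, r1, r2, r3⟩, ⟨c0, c1, c2, c3⟩⟩ := mem_Mats'.1 hM
  have m0 := mult_four (M 0) (i := 0) (j := 1) (k := 2) (l := 3) (by decide) (by decide) (by decide)
    (by decide) (by decide) (by decide) d0
  have m1 := mult_four (M 1) (i := 1) (j := 0) (k := 2) (l := 3) (by decide) (by decide) (by decide)
    (by decide) (by decide) (by decide) d1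
  have e01 : M 0 1 = n - u := by omega
  have e10 : M 1 0 = n - v := by omega
  have eu : M 0 2 + M 0 3 = u := by omega
  have ev : M 1 2 + M 1 3 = v := by omega
  rw [eu, e01, show n - u + u = n by omega, Nat.choose_symm (by omega)] at m0
  rw [ev, e10, show n - v + v = n by omega, Nat.choose_symm (by omega)] at m1
  have s1 : c 0 3 ^ M 0 3 = c 0 3 ^ u * c 0 3 ^ M 0 2 := sgn_sub (hc 0 3 (by decide)) eu.symm
  have s2 : c 1 2 ^ M 1 2 = c 1 2 ^ w * c 1 2 ^ M 0 2 := sgn_sub (hc 1 2 (by decide)) (by omega)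
  have s3 : c 1 3 ^ M 1 3 = c 1 3 ^ v * c 1 3 ^ M 1 2 := sgn_sub (hc 1 3 (by decide)) ev.symm
  have s4 : c 1 3 ^ M 1 2 = c 1 3 ^ w * c 1 3 ^ M 0 2 := sgn_sub (hc 1 3 (by decide)) (by omega)
  have s5 : (-1 : ℤ) ^ M 0 2 = c 0 2 ^ M 0 2 * c 0 3 ^ M 0 2 * c 1 2 ^ M 0 2 * c 1 3 ^ M 0 2 := by
    rw [← hs, mul_pow, mul_pow, mul_pow]
  unfold T
  rw [Fin.prod_univ_four]
  nth_rewrite 1 [row]
  nth_rewrite 1 [row]
  rw [m0, m1, Fin.prod_univ_four, Fin.prod_univ_four, d0, d1, e01, e10, s1, s2, s3, s4, s5]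
  push_cast
  ring

theorem pair (h2 : p ≠ 2) (c : Fin 4 → Fin 4 → ℤ) (hc : ∀ i j, i ≠ j → c i j * c i j = 1)
    (hs : c 0 2 * c 0 3 * c 1 2 * c 1 3 = -1) {n : ℕ} (hn : p ∣ n) :
    (n : ℤ_[p]) ^ 3 ∣ ∑ M ∈ Mats n,
      if ZR p M 2 ∧ ZR p M 3 ∧ ¬ ZR p M 0 then ((T c M : ℤ) : ℤ_[p]) else 0 := by
  rw [← sum_filter]
  set S := (Mats n).filter (fun M => ZR p M 2 ∧ ZR p M 3 ∧ ¬ ZR p M 0) with hS
  rw [← sum_fiberwise_of_maps_to (s := S) (t := S.image (fun M => (M 2, M 3)))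
    (g := fun M => (M 2, M 3)) (fun M hM => mem_image_of_mem _ hM)]
  refine dvd_sum fun y hy => ?_
  obtain ⟨M0, hM0, rfl⟩ := mem_image.1 hy
  obtain ⟨hM0m, hz2, hz3, -⟩ := mem_filter.1 hM0
  obtain ⟨⟨d0, d1, d2, d3⟩, ⟨r0, r1, r2, r3⟩, ⟨c0, c1, c2, c3⟩⟩ := mem_Mats'.1 hM0m
  obtain ⟨u, hu⟩ : ∃ u, u = M0 2 1 + M0 3 1 := ⟨_, rfl⟩
  obtain ⟨v, hv⟩ : ∃ v, v = M0 2 0 + M0 3 0 := ⟨_, rfl⟩
  obtain ⟨w, hw⟩ : ∃ w, w = M0 3 0 + M0 3 1 := ⟨_, rfl⟩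
  have hpu : p ∣ u := hu ▸ dvd_add (hz2 1) (hz3 1)
  have hpw : p ∣ w := hw ▸ dvd_add (hz3 0) (hz3 1)
  obtain ⟨K, hK⟩ : ∃ K : ℤ, K = c 0 1 ^ (n - u) * c 1 0 ^ (n - v) * c 0 3 ^ u * c 1 2 ^ w *
      c 1 3 ^ v * c 1 3 ^ w *
      n.choose u * n.choose v * row (c 2) (M0 2) * row (c 3) (M0 3) := ⟨_, rfl⟩
  have hsum : ∑ M ∈ S.filter (fun M => (M 2, M 3) = (M0 2, M0 3)), ((T c M : ℤ) : ℤ_[p]) =
      (K : ℤ_[p]) * ∑ x ∈ HasAntidiagonal.antidiagonal w,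
      (if p ∣ x.1 then 0 else ((-1) ^ x.1 * (u.choose x.1 : ℕ) * (v.choose x.2 : ℕ) : ℤ_[p])) := by
    have e1 : ∑ x ∈ HasAntidiagonal.antidiagonal w,
        (if p ∣ x.1 then 0 else ((-1) ^ x.1 * (u.choose x.1 : ℕ) * (v.choose x.2 : ℕ) : ℤ_[p])) =
        ∑ x ∈ (HasAntidiagonal.antidiagonal w).filter (fun x => ¬ p ∣ x.1 ∧ x.1 ≤ u ∧ x.2 ≤ v),
          ((-1) ^ x.1 * (u.choose x.1 : ℕ) * (v.choose x.2 : ℕ) : ℤ_[p]) := by
      rw [sum_filter]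
      refine sum_congr rfl fun x _ => ?_
      by_cases h1 : p ∣ x.1
      · simp [h1]
      by_cases h3 : x.1 ≤ u
      · by_cases h4 : x.2 ≤ v
        · simp [h1, h3, h4]
        · simp [h1, h4, Nat.choose_eq_zero_of_lt (not_le.1 h4)]
      · simp [h1, h3, Nat.choose_eq_zero_of_lt (not_le.1 h3)]
    rw [e1, mul_sum]
    refine sum_bij' (fun M _ => (M 0 2, M 1 2))
      (fun x _ => ![![0, n - u, x.1, u - x.1], ![n - v, 0, x.2, v - x.2], M0 2, M0 3]) ?_ ?_ ?_ ?_ ?_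
    · intro M hM
      obtain ⟨hMS, hMe⟩ := mem_filter.1 hM
      obtain ⟨hMm, -, -, hz0⟩ := mem_filter.1 hMS
      obtain ⟨e2, e3⟩ := Prod.mk.inj hMe
      obtain ⟨⟨d0', d1', d2', d3'⟩, ⟨r0', r1', r2', r3'⟩, ⟨c0', c1', c2', c3'⟩⟩ := mem_Mats'.1 hMm
      rw [e2, e3] at c0' c1' c2' c3'
      rw [mem_filter, HasAntidiagonal.mem_antidiagonal]
      refine ⟨by simp only; omega, ?_, by simp only; omega, by simp only; omega⟩
      intro hd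
      apply hz0
      intro j
      fin_cases j
      · show p ∣ M 0 0
        rw [d0']; exact dvd_zero p
      · show p ∣ M 0 1
        rw [show M 0 1 = n - u by omega]; exact Nat.dvd_sub hn hpu
      · exact hd
      · show p ∣ M 0 3
        rw [show M 0 3 = u - M 0 2 by omega]; exact Nat.dvd_sub hpu hd
    · intro x hx
      obtain ⟨hx1, hx2, hx3, hx4⟩ := mem_filter.1 hx
      rw [HasAntidiagonal.mem_antidiagonal] at hx1
      rw [mem_filter, hS, mem_filter, mem_Mats']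
      refine ⟨⟨?_, hz2, hz3, fun h => hx2 (h 2)⟩, rfl⟩
      simp only [Matrix.cons_val_zero, Matrix.cons_val_one, Matrix.cons_val]
      clear hx2 hx hpu hpw hn h2
      refine ⟨⟨?_, ?_, ?_, ?_⟩, ⟨?_, ?_, ?_, ?_⟩, ⟨?_, ?_, ?_, ?_⟩⟩ <;> first | trivial | omega
    · intro M hM
      obtain ⟨hMS, hMe⟩ := mem_filter.1 hM
      obtain ⟨hMm, -, -, hz0⟩ := mem_filter.1 hMS
      obtain ⟨e2, e3⟩ := Prod.mk.inj hMe
      obtain ⟨⟨d0', d1', d2', d3'⟩, ⟨r0', r1', r2', r3'⟩, ⟨c0', c1', c2', c3'⟩⟩ := mem_Mats'.1 hMm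
      rw [e2, e3] at c0' c1' c2' c3'
      funext i
      fin_cases i
      · funext j
        fin_cases j <;> simp <;> omega
      · funext j
        fin_cases j <;> simp <;> omega
      · exact e2.symm
      · exact e3.symm
    · intro x _
      simp
    · intro M hM
      obtain ⟨hMS, hMe⟩ := mem_filter.1 hM
      obtain ⟨hMm, -, -, hz0⟩ := mem_filter.1 hMS
      obtain ⟨e2, e3⟩ := Prod.mk.inj hMe
      rw [T_pair c hc hs hMm (u := u) (v := v) (w := w) (by rw [e2, e3, hu]) (by rw [e2, e3, hv])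
        (by rw [e3, hw]), e2, e3, ← hK]
      push_cast
      ring
  rw [hsum]
  have hr2 : ∀ x, (n : ℤ) ∣ row (c 2) (M0 2) * M0 2 x := fun x => by
    have := dvd_row (c 2) (M0 2) x
    rwa [(mem_Mats.1 hM0m).2.1] at this
  have hr3 : ∀ x, (n : ℤ) ∣ row (c 3) (M0 3) * M0 3 x := fun x => by
    have := dvd_row (c 3) (M0 3) x
    rwa [(mem_Mats.1 hM0m).2.1] at this
  have hfin : ∀ g : ℕ, (g = u ∨ g = v ∨ g = w) → (n : ℤ_[p]) ^ 3 ∣ (K : ℤ_[p]) * (u * v * g) := by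
    intro g hg
    have h1 : (n : ℤ) ∣ row (c 2) (M0 2) * row (c 3) (M0 3) * g := by
      obtain ⟨a20, h20⟩ := hr2 0
      obtain ⟨a21, h21⟩ := hr2 1
      obtain ⟨a30, h30⟩ := hr3 0
      obtain ⟨a31, h31⟩ := hr3 1
      rcases hg with hg | hg | hg
      · refine ⟨a21 * row (c 3) (M0 3) + a31 * row (c 2) (M0 2), ?_⟩
        rw [hg, hu]; push_cast
        linear_combination (row (c 3) (M0 3)) * h21 + (row (c 2) (M0 2)) * h31
      · refine ⟨a20 * row (c 3) (M0 3) + a30 * row (c 2) (M0 2), ?_⟩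
        rw [hg, hv]; push_cast
        linear_combination (row (c 3) (M0 3)) * h20 + (row (c 2) (M0 2)) * h30
      · refine ⟨a30 * row (c 2) (M0 2) + a31 * row (c 2) (M0 2), ?_⟩
        rw [hg, hw]; push_cast
        linear_combination (row (c 2) (M0 2)) * h30 + (row (c 2) (M0 2)) * h31
    have h3 : (n : ℤ) ∣ (n.choose u : ℤ) * u := by exact_mod_cast dvd_choose_mul n u
    have h4 : (n : ℤ) ∣ (n.choose v : ℤ) * v := by exact_mod_cast dvd_choose_mul n v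
    have h5 := mul_dvd_mul (mul_dvd_mul h1 h3) h4
    have h6 : (n : ℤ) ^ 3 ∣ K * (u * v * g) := by
      obtain ⟨a, ha⟩ := h5
      refine ⟨a * (c 0 1 ^ (n - u) * c 1 0 ^ (n - v) * c 0 3 ^ u * c 1 2 ^ w * c 1 3 ^ v *
        c 1 3 ^ w), ?_⟩
      rw [hK]
      linear_combination (c 0 1 ^ (n - u) * c 1 0 ^ (n - v) * c 0 3 ^ u * c 1 2 ^ w * c 1 3 ^ v *
        c 1 3 ^ w) * ha
    have := map_dvd (Int.castRingHom ℤ_[p]) h6
    simpa using this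
  have hg : ∃ g : ℕ, (g = u ∨ g = v ∨ g = w) ∧ (g : ℤ_[p]) ∣ u ∧ (g : ℤ_[p]) ∣ v ∧
      (g : ℤ_[p]) ∣ w := by
    rcases ValuationRing.dvd_total (u : ℤ_[p]) (v : ℤ_[p]) with h | h
    · rcases ValuationRing.dvd_total (u : ℤ_[p]) (w : ℤ_[p]) with h' | h'
      · exact ⟨u, Or.inl rfl, dvd_rfl, h, h'⟩
      · exact ⟨w, Or.inr (Or.inr rfl), h', h'.trans h, dvd_rfl⟩
    · rcases ValuationRing.dvd_total (v : ℤ_[p]) (w : ℤ_[p]) with h' | h'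
      · exact ⟨v, Or.inr (Or.inl rfl), h, dvd_rfl, h'⟩
      · exact ⟨w, Or.inr (Or.inr rfl), h'.trans h, h', dvd_rfl⟩
  obtain ⟨g, hg1, hg2, hg3, hg4⟩ := hg
  exact (hfin g hg1).trans (mul_dvd_mul_left _ (key h2 hpw g hg2 hg3 hg4))

theorem pair_perm (h2 : p ≠ 2) (σ : Equiv.Perm (Fin 4))
    (hs : cc (σ 0) (σ 2) * cc (σ 0) (σ 3) * cc (σ 1) (σ 2) * cc (σ 1) (σ 3) = -1) {n : ℕ}
    (hn : p ∣ n) :
    (n : ℤ_[p]) ^ 3 ∣ ∑ M ∈ Mats n,
      if ZR p M (σ 2) ∧ ZR p M (σ 3) ∧ ¬ ZR p M (σ 0) then ((T cc M : ℤ) : ℤ_[p]) else 0 := by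
  have h := pair h2 (fun i j => cc (σ i) (σ j))
    (fun i j hij => cc_sq _ _ (fun h => hij (σ.injective h))) hs hn
  rw [← sum_perm n σ] at h
  have hZ : ∀ (M : Mx) (i : Fin 4), ZR p (fun i j => M (σ i) (σ j)) i ↔ ZR p M (σ i) := by
    intro M i
    unfold ZR
    exact ⟨fun h j => by simpa using h (σ.symm j), fun h j => h _⟩
  simpa only [hZ, T_perm] using h

end Pool.Agent.MP_ec1b19_nt.H49
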