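import Mathlib
import Pool.Agent.MP_ec1b19_nt.H49.Jac
import Pool.Agent.MP_ec1b19_nt.H49.Pair

set_option autoImplicit false

namespace Pool.Agent.MP_ec1b19_nt.H49

open Finset

variable {p : ℕ} [hp : Fact p.Prime]

lemma row_scale (h2 : p ≠ 2) (c : Fin 4 → ℤ) (f : Fin 4 → ℕ) {i j k l : Fin 4} (h1 : i ≠ j)
    (h2' : i ≠ k) (h3 : i ≠ l) (h4 : j ≠ k) (h5 : j ≠ l) (h6 : k ≠ l) (h0 : f i = 0)
    (hc : ∀ x, x ≠ i → c x * c x = 1) {a : ℕ} (ha : ∑ x, f x = a) :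
    ∃ w1 w2 : ℤ_[p], ((row c (fun x => p * f x) : ℤ) : ℤ_[p]) = (row c f : ℤ) *
      ((1 + (kap p + p ^ 3 * w1) * ((a * f j * (f k + f l) : ℤ) : ℤ_[p])) *
       (1 + (kap p + p ^ 3 * w2) * (((f k + f l) * f k * f l : ℤ) : ℤ_[p]))) := by
  have m1 := mult_four f h1 h2' h3 h4 h5 h6 h0
  have m2 := mult_four (fun x => p * f x) h1 h2' h3 h4 h5 h6 (by simp [h0])
  simp only [← mul_add] at m2
  obtain ⟨w1, e1⟩ := jacobsthal h2 (f j) (f k + f l)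
  obtain ⟨w2, e2⟩ := jacobsthal h2 (f k) (f l)
  have ea : a = f j + (f k + f l) := by
    rw [← ha, sum_four f h1 h2' h3 h4 h5 h6, h0, zero_add]
  have es : ∏ x, c x ^ (p * f x) = ∏ x, c x ^ f x := by
    refine prod_congr rfl fun x _ => ?_
    by_cases hx : x = i
    · rw [hx, h0]; simp
    · obtain ⟨t, ht⟩ := hp.out.odd_of_ne_two h2
      rw [pow_mul, ht, pow_succ, pow_mul, sq, hc x hx, one_pow, one_mul]
  refine ⟨w1, w2, ?_⟩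
  unfold row
  rw [m1, m2, es, ea]
  push_cast at e1 e2 ⊢
  rw [e1, e2]
  ring

lemma step_prod {R : Type*} [CommRing R] {q κ t D A S x w : R} (hκ : q ^ 2 ∣ κ)
    (h1 : q ^ 3 * D ∣ t * (A - 1 - κ * S)) (h2 : D ∣ t * x) :
    q ^ 3 * D ∣ t * (A * (1 + (κ + q ^ 3 * w) * x) - 1 - κ * (S + x)) := by
  obtain ⟨k, rfl⟩ := hκ
  obtain ⟨a, ha⟩ := h1
  obtain ⟨b, hb⟩ := h2
  refine ⟨a * (1 + (q ^ 2 * k + q ^ 3 * w) * x) + w * b + (k + q * w) * q * k * S * b, ?_⟩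
  linear_combination (1 + (q ^ 2 * k + q ^ 3 * w) * x) * ha +
    (q ^ 3 * w + (q ^ 2 * k + q ^ 3 * w) * q ^ 2 * k * S) * hb

lemma T_err1 {a : ℕ} {M : Mx} (hM : M ∈ Mats a) (c : Fin 4 → Fin 4 → ℤ) {i j k l : Fin 4}
    (h1 : i ≠ j) (h2 : i ≠ k) (h3 : i ≠ l) (h4 : j ≠ k) (h5 : j ≠ l) (h6 : k ≠ l) :
    (a : ℤ) ^ 3 ∣ T c M * (a * M i j * (M i k + M i l)) := by
  obtain ⟨hd, hr, hcol⟩ := mem_Mats.1 hM
  have r1 := hr i
  have c1 := hcol j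
  rw [sum_four _ h1 h2 h3 h4 h5 h6, hd] at r1
  rw [sum_four _ h1 h2 h3 h4 h5 h6, hd] at c1
  have e : (M i k : ℤ) + M i l = M k j + M l j := by
    have : M i k + M i l = M k j + M l j := by omega
    exact_mod_cast this
  obtain ⟨x, hx⟩ := T_dvd2 hM c h2 j j
  obtain ⟨y, hy⟩ := T_dvd2 hM c h3 j j
  refine ⟨x + y, ?_⟩
  rw [e]
  linear_combination a * hx + a * hy

lemma T_err2 {a : ℕ} {M : Mx} (hM : M ∈ Mats a) (c : Fin 4 → Fin 4 → ℤ) {i j k l : Fin 4}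
    (h1 : i ≠ j) (h2 : i ≠ k) (h3 : i ≠ l) (h4 : j ≠ k) (h5 : j ≠ l) (h6 : k ≠ l) :
    (a : ℤ) ^ 3 ∣ T c M * ((M i k + M i l) * M i k * M i l) := by
  obtain ⟨hd, hr, hcol⟩ := mem_Mats.1 hM
  have r1 := hr i
  have c1 := hcol j
  have c2 := hcol k
  have c3 := hcol l
  rw [sum_four _ h1 h2 h3 h4 h5 h6, hd] at r1
  rw [sum_four _ h1 h2 h3 h4 h5 h6, hd] at c1
  rw [sum_four _ h1 h2 h3 h4 h5 h6, hd] at c2
  rw [sum_four _ h1 h2 h3 h4 h5 h6, hd] at c3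
  have e : (M i k : ℤ) + M i l = M k j + M l j := by
    have : M i k + M i l = M k j + M l j := by omega
    exact_mod_cast this
  have e2 : (M i k : ℤ) + M j k + M l k = a := by
    have : M i k + M j k + M l k = a := by omega
    exact_mod_cast this
  have e3 : (M i l : ℤ) + M j l + M k l = a := by
    have : M i l + M j l + M k l = a := by omega
    exact_mod_cast this
  obtain ⟨x1, hx1⟩ := T_dvd2 hM c h2 l j
  obtain ⟨x2, hx2⟩ := T_dvd3 hM c h1 h2 h4 l k j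
  obtain ⟨x3, hx3⟩ := T_dvd3 hM c h2 h3 h6 l j k
  obtain ⟨y1, hy1⟩ := T_dvd2 hM c h3 k j
  obtain ⟨y2, hy2⟩ := T_dvd3 hM c h1 h3 h5 k l j
  obtain ⟨y3, hy3⟩ := T_dvd3 hM c h2 h3 h6 k l j
  refine ⟨x1 - x2 - x3 + y1 - y2 - y3, ?_⟩
  rw [e]
  linear_combination a * hx1 - hx2 - hx3 + a * hy1 - hy2 - hy3 +
    (T c M * M k j * M i l) * e2 + (T c M * M l j * M i k) * e3

/-- The sum of the first-order Jacobsthal corrections. -/
def Pi4 (a : ℕ) (M : Mx) : ℤ :=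
  a * M 0 1 * (M 0 2 + M 0 3) + (M 0 2 + M 0 3) * M 0 2 * M 0 3 +
  a * M 1 0 * (M 1 2 + M 1 3) + (M 1 2 + M 1 3) * M 1 2 * M 1 3 +
  a * M 2 0 * (M 2 1 + M 2 3) + (M 2 1 + M 2 3) * M 2 1 * M 2 3 +
  a * M 3 0 * (M 3 1 + M 3 2) + (M 3 1 + M 3 2) * M 3 1 * M 3 2

lemma cast_dvd3 {a : ℕ} {t x : ℤ} (h : (a : ℤ) ^ 3 ∣ t * x) :
    (a : ℤ_[p]) ^ 3 ∣ (t : ℤ_[p]) * (x : ℤ_[p]) := by
  have := map_dvd (Int.castRingHom ℤ_[p]) h
  simpa using this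

lemma T_scale (h2 : p ≠ 2) {a : ℕ} {M : Mx} (hM : M ∈ Mats a) :
    (p : ℤ_[p]) ^ 3 * (a : ℤ_[p]) ^ 3 ∣ ((T cc (fun i j => p * M i j) : ℤ) : ℤ_[p]) - (T cc M : ℤ) -
      kap p * ((T cc M * Pi4 a M : ℤ) : ℤ_[p]) := by
  obtain ⟨hd, hr, hcol⟩ := mem_Mats.1 hM
  have hc : ∀ i x, x ≠ i → cc i x * cc i x = 1 := fun i x h => cc_sq i x h.symm
  obtain ⟨w1, w2, e0⟩ := row_scale h2 (cc 0) (M 0) (i := 0) (j := 1) (k := 2) (l := 3) (by decide)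
    (by decide) (by decide) (by decide) (by decide) (by decide) (hd 0) (hc 0) (hr 0)
  obtain ⟨w3, w4, e1⟩ := row_scale h2 (cc 1) (M 1) (i := 1) (j := 0) (k := 2) (l := 3) (by decide)
    (by decide) (by decide) (by decide) (by decide) (by decide) (hd 1) (hc 1) (hr 1)
  obtain ⟨w5, w6, e2⟩ := row_scale h2 (cc 2) (M 2) (i := 2) (j := 0) (k := 1) (l := 3) (by decide)
    (by decide) (by decide) (by decide) (by decide) (by decide) (hd 2) (hc 2) (hr 2)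
  obtain ⟨w7, w8, e3⟩ := row_scale h2 (cc 3) (M 3) (i := 3) (j := 0) (k := 1) (l := 2) (by decide)
    (by decide) (by decide) (by decide) (by decide) (by decide) (hd 3) (hc 3) (hr 3)
  have s0 : (p : ℤ_[p]) ^ 3 * (a : ℤ_[p]) ^ 3 ∣ ((T cc M : ℤ) : ℤ_[p]) * (1 - 1 - kap p * 0) := by
    simp
  have s1 := step_prod (w := w1) kap_dvd s0 (cast_dvd3 (T_err1 hM cc (i := 0) (j := 1) (k := 2)
    (l := 3) (by decide) (by decide) (by decide) (by decide) (by decide) (by decide)))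
  have s2 := step_prod (w := w2) kap_dvd s1 (cast_dvd3 (T_err2 hM cc (i := 0) (j := 1) (k := 2)
    (l := 3) (by decide) (by decide) (by decide) (by decide) (by decide) (by decide)))
  have s3 := step_prod (w := w3) kap_dvd s2 (cast_dvd3 (T_err1 hM cc (i := 1) (j := 0) (k := 2)
    (l := 3) (by decide) (by decide) (by decide) (by decide) (by decide) (by decide)))
  have s4 := step_prod (w := w4) kap_dvd s3 (cast_dvd3 (T_err2 hM cc (i := 1) (j := 0) (k := 2)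
    (l := 3) (by decide) (by decide) (by decide) (by decide) (by decide) (by decide)))
  have s5 := step_prod (w := w5) kap_dvd s4 (cast_dvd3 (T_err1 hM cc (i := 2) (j := 0) (k := 1)
    (l := 3) (by decide) (by decide) (by decide) (by decide) (by decide) (by decide)))
  have s6 := step_prod (w := w6) kap_dvd s5 (cast_dvd3 (T_err2 hM cc (i := 2) (j := 0) (k := 1)
    (l := 3) (by decide) (by decide) (by decide) (by decide) (by decide) (by decide)))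
  have s7 := step_prod (w := w7) kap_dvd s6 (cast_dvd3 (T_err1 hM cc (i := 3) (j := 0) (k := 1)
    (l := 2) (by decide) (by decide) (by decide) (by decide) (by decide) (by decide)))
  have s8 := step_prod (w := w8) kap_dvd s7 (cast_dvd3 (T_err2 hM cc (i := 3) (j := 0) (k := 1)
    (l := 2) (by decide) (by decide) (by decide) (by decide) (by decide) (by decide)))
  have eT : ((T cc (fun i j => p * M i j) : ℤ) : ℤ_[p]) =
      (row (cc 0) (fun x => p * M 0 x) : ℤ) * (row (cc 1) (fun x => p * M 1 x) : ℤ) *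
      (row (cc 2) (fun x => p * M 2 x) : ℤ) * (row (cc 3) (fun x => p * M 3 x) : ℤ) := by
    unfold T
    rw [Fin.prod_univ_four]
    push_cast
    rfl
  have eT' : ((T cc M : ℤ) : ℤ_[p]) = (row (cc 0) (M 0) : ℤ) * (row (cc 1) (M 1) : ℤ) *
      (row (cc 2) (M 2) : ℤ) * (row (cc 3) (M 3) : ℤ) := by
    unfold T
    rw [Fin.prod_univ_four]
    push_cast
    rfl
  have eP : ((Pi4 a M : ℤ) : ℤ_[p]) =
    ((a * M 0 1 * (M 0 2 + M 0 3) : ℤ) : ℤ_[p]) + (((M 0 2 + M 0 3) * M 0 2 * M 0 3 : ℤ) : ℤ_[p]) +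
    ((a * M 1 0 * (M 1 2 + M 1 3) : ℤ) : ℤ_[p]) + (((M 1 2 + M 1 3) * M 1 2 * M 1 3 : ℤ) : ℤ_[p]) +
    ((a * M 2 0 * (M 2 1 + M 2 3) : ℤ) : ℤ_[p]) + (((M 2 1 + M 2 3) * M 2 1 * M 2 3 : ℤ) : ℤ_[p]) +
    ((a * M 3 0 * (M 3 1 + M 3 2) : ℤ) : ℤ_[p]) + (((M 3 1 + M 3 2) * M 3 1 * M 3 2 : ℤ) : ℤ_[p]) := by
    unfold Pi4
    simp only [Int.cast_add]
  rw [Int.cast_mul, eP, eT, e0, e1, e2, e3]
  obtain ⟨z, hz⟩ := s8
  refine ⟨z, ?_⟩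
  rw [← hz, eT']
  generalize ((a * M 0 1 * (M 0 2 + M 0 3) : ℤ) : ℤ_[p]) = x1
  generalize (((M 0 2 + M 0 3) * M 0 2 * M 0 3 : ℤ) : ℤ_[p]) = x2
  generalize ((a * M 1 0 * (M 1 2 + M 1 3) : ℤ) : ℤ_[p]) = x3
  generalize (((M 1 2 + M 1 3) * M 1 2 * M 1 3 : ℤ) : ℤ_[p]) = x4
  generalize ((a * M 2 0 * (M 2 1 + M 2 3) : ℤ) : ℤ_[p]) = x5
  generalize (((M 2 1 + M 2 3) * M 2 1 * M 2 3 : ℤ) : ℤ_[p]) = x6
  generalize ((a * M 3 0 * (M 3 1 + M 3 2) : ℤ) : ℤ_[p]) = x7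
  generalize (((M 3 1 + M 3 2) * M 3 1 * M 3 2 : ℤ) : ℤ_[p]) = x8
  generalize 1 + (kap p + (p : ℤ_[p]) ^ 3 * w1) * x1 = y1
  generalize 1 + (kap p + (p : ℤ_[p]) ^ 3 * w2) * x2 = y2
  generalize 1 + (kap p + (p : ℤ_[p]) ^ 3 * w3) * x3 = y3
  generalize 1 + (kap p + (p : ℤ_[p]) ^ 3 * w4) * x4 = y4
  generalize 1 + (kap p + (p : ℤ_[p]) ^ 3 * w5) * x5 = y5
  generalize 1 + (kap p + (p : ℤ_[p]) ^ 3 * w6) * x6 = y6
  generalize 1 + (kap p + (p : ℤ_[p]) ^ 3 * w7) * x7 = y7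
  generalize 1 + (kap p + (p : ℤ_[p]) ^ 3 * w8) * x8 = y8
  ring

/-- Orbit representatives of the correction terms under the cyclic symmetry. -/
def phi (a : ℕ) (M : Mx) : ℤ :=
  M 2 3 * M 3 2 * (a - M 0 1) + M 2 3 * M 3 2 * (a - M 1 0) + M 0 3 * M 3 0 * (a - M 1 2) +
  M 0 3 * M 3 0 * (a - M 2 1) + M 0 1 * M 1 2 * M 2 0 + M 1 0 * M 2 1 * M 0 2

lemma phi_dvd {a : ℕ} {M : Mx} (hM : M ∈ Mats a) : (a : ℤ) ^ 3 ∣ T cc M * phi a M := by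
  obtain ⟨x1, h1⟩ := T_dvd2 hM cc (i := 2) (j := 3) (by decide) 3 2
  obtain ⟨x2, h2⟩ := T_dvd2 hM cc (i := 0) (j := 3) (by decide) 3 0
  obtain ⟨y1, g1⟩ := T_dvd3 hM cc (i := 2) (j := 3) (k := 0) (by decide) (by decide) (by decide) 3 2 1
  obtain ⟨y2, g2⟩ := T_dvd3 hM cc (i := 2) (j := 3) (k := 1) (by decide) (by decide) (by decide) 3 2 0
  obtain ⟨y3, g3⟩ := T_dvd3 hM cc (i := 0) (j := 3) (k := 1) (by decide) (by decide) (by decide) 3 0 2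
  obtain ⟨y4, g4⟩ := T_dvd3 hM cc (i := 0) (j := 3) (k := 2) (by decide) (by decide) (by decide) 3 0 1
  obtain ⟨y5, g5⟩ := T_dvd3 hM cc (i := 0) (j := 1) (k := 2) (by decide) (by decide) (by decide) 1 2 0
  obtain ⟨y6, g6⟩ := T_dvd3 hM cc (i := 1) (j := 2) (k := 0) (by decide) (by decide) (by decide) 0 1 2
  refine ⟨2 * x1 + 2 * x2 - y1 - y2 - y3 - y4 + y5 + y6, ?_⟩
  unfold phi
  linear_combination (2 * a) * h1 + (2 * a) * h2 - g1 - g2 - g3 - g4 + g5 + g6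

lemma Pi4_eq {a : ℕ} {M : Mx} (hM : M ∈ Mats a) :
    Pi4 a M = phi a M + phi a (fun i j => M (cyc i) (cyc j)) +
      phi a (fun i j => M (cyc (cyc i)) (cyc (cyc j))) +
      (M 1 2 * M 2 3 * M 3 1 + M 1 3 * M 2 1 * M 3 2) := by
  obtain ⟨⟨d0, d1, d2, d3⟩, ⟨r0, r1, r2, r3⟩, ⟨c0, c1, c2, c3⟩⟩ := mem_Mats'.1 hM
  have k0 : cyc 0 = 0 := rfl
  have k1 : cyc 1 = 2 := rfl
  have k2 : cyc 2 = 3 := rfl
  have k3 : cyc 3 = 1 := rfl
  unfold Pi4 phi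
  simp only [k0, k1, k2, k3]
  have e03 : (M 0 3 : ℤ) = a - M 0 1 - M 0 2 := by omega
  have e13 : (M 1 3 : ℤ) = a - M 1 0 - M 1 2 := by omega
  have e23 : (M 2 3 : ℤ) = M 0 1 + M 0 2 + M 1 0 + M 1 2 - a := by omega
  have e21 : (M 2 1 : ℤ) = 2 * a - M 2 0 - M 0 1 - M 0 2 - M 1 0 - M 1 2 := by omega
  have e30 : (M 3 0 : ℤ) = a - M 1 0 - M 2 0 := by omega
  have e31 : (M 3 1 : ℤ) = M 2 0 + M 0 2 + M 1 0 + M 1 2 - a := by omega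
  have e32 : (M 3 2 : ℤ) = a - M 0 2 - M 1 2 := by omega
  rw [e03, e13, e23, e21, e30, e31, e32]
  ring

end Pool.Agent.MP_ec1b19_nt.H49
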