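import Mathlib
import Pool.Agent.MP_ec1b19_nt.H49.Zero

set_option autoImplicit false

namespace Pool.Agent.MP_ec1b19_nt.H49

open Finset

variable {p : ℕ} [hp : Fact p.Prime]

lemma T_shift (M N : Mx) (h0 : N 0 = M 0)
    (a1 : M 1 2 = N 1 2 + 1) (a2 : N 1 3 = M 1 3 + 1) (a3 : M 1 0 = N 1 0) (a4 : M 1 1 = N 1 1)
    (b1 : M 2 3 = N 2 3 + 1) (b2 : N 2 1 = M 2 1 + 1) (b3 : M 2 0 = N 2 0) (b4 : M 2 2 = N 2 2)
    (c1 : M 3 1 = N 3 1 + 1) (c2 : N 3 2 = M 3 2 + 1) (c3 : M 3 0 = N 3 0) (c4 : M 3 3 = N 3 3) :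
    T cc M * (M 1 2 * M 2 3 * M 3 1) = - (T cc N * (N 1 3 * N 2 1 * N 3 2)) := by
  have m1 := mult_shift (M 1) (N 1) (x := 2) (y := 3) (by decide) a1 a2 (by
    intro z h1 h2; fin_cases z
    · exact a3
    · exact a4
    · exact absurd rfl h1
    · exact absurd rfl h2)
  have m2 := mult_shift (M 2) (N 2) (x := 3) (y := 1) (by decide) b1 b2 (by
    intro z h1 h2; fin_cases z
    · exact b3
    · exact absurd rfl h2
    · exact b4
    · exact absurd rfl h1)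
  have m3 := mult_shift (M 3) (N 3) (x := 1) (y := 2) (by decide) c1 c2 (by
    intro z h1 h2; fin_cases z
    · exact c3
    · exact absurd rfl h1
    · exact absurd rfl h2
    · exact c4)
  have r1 : row (cc 1) (M 1) * M 1 2 = - (row (cc 1) (N 1) * N 1 3) := by
    have m1' : (Nat.multinomial univ (M 1) : ℤ) * M 1 2 = Nat.multinomial univ (N 1) * N 1 3 := by
      exact_mod_cast m1
    have s : ∏ j, cc 1 j ^ M 1 j = - ∏ j, cc 1 j ^ N 1 j := by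
      rw [Fin.prod_univ_four, Fin.prod_univ_four, a1, a2, a3, a4, pow_succ, pow_succ,
        show cc 1 2 = 1 from rfl, show cc 1 3 = -1 from rfl]
      ring
    unfold row
    rw [s]
    linear_combination (-∏ j, cc 1 j ^ N 1 j) * m1'
  have r2 : row (cc 2) (M 2) * M 2 3 = - (row (cc 2) (N 2) * N 2 1) := by
    have m2' : (Nat.multinomial univ (M 2) : ℤ) * M 2 3 = Nat.multinomial univ (N 2) * N 2 1 := by
      exact_mod_cast m2
    have s : ∏ j, cc 2 j ^ M 2 j = - ∏ j, cc 2 j ^ N 2 j := by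
      rw [Fin.prod_univ_four, Fin.prod_univ_four, b1, b2, b3, b4, pow_succ, pow_succ,
        show cc 2 3 = 1 from rfl, show cc 2 1 = -1 from rfl]
      ring
    unfold row
    rw [s]
    linear_combination (-∏ j, cc 2 j ^ N 2 j) * m2'
  have r3 : row (cc 3) (M 3) * M 3 1 = - (row (cc 3) (N 3) * N 3 2) := by
    have m3' : (Nat.multinomial univ (M 3) : ℤ) * M 3 1 = Nat.multinomial univ (N 3) * N 3 2 := by
      exact_mod_cast m3
    have s : ∏ j, cc 3 j ^ M 3 j = - ∏ j, cc 3 j ^ N 3 j := by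
      rw [Fin.prod_univ_four, Fin.prod_univ_four, c1, c2, c3, c4, pow_succ, pow_succ,
        show cc 3 1 = 1 from rfl, show cc 3 2 = -1 from rfl]
      ring
    unfold row
    rw [s]
    linear_combination (-∏ j, cc 3 j ^ N 3 j) * m3'
  unfold T
  rw [Fin.prod_univ_four, Fin.prod_univ_four, h0]
  calc _ = row (cc 0) (M 0) * (row (cc 1) (M 1) * M 1 2) * (row (cc 2) (M 2) * M 2 3) *
        (row (cc 3) (M 3) * M 3 1) := by ring
    _ = _ := by rw [r1, r2, r3]; ring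

lemma sum_shift (a : ℕ) : ∑ M ∈ Mats a, T cc M * (M 1 2 * M 2 3 * M 3 1) =
    - ∑ M ∈ Mats a, T cc M * (M 1 3 * M 2 1 * M 3 2) := by
  rw [← sum_neg_distrib,
    ← sum_filter_of_ne (p := fun M : Mx => 1 ≤ M 1 2 ∧ 1 ≤ M 2 3 ∧ 1 ≤ M 3 1) (s := Mats a),
    ← sum_filter_of_ne (p := fun M : Mx => 1 ≤ M 1 3 ∧ 1 ≤ M 2 1 ∧ 1 ≤ M 3 2) (s := Mats a)]
  · refine sum_bij'
      (fun M _ => ![M 0, ![M 1 0, M 1 1, M 1 2 - 1, M 1 3 + 1], ![M 2 0, M 2 1 + 1, M 2 2, M 2 3 - 1],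
        ![M 3 0, M 3 1 - 1, M 3 2 + 1, M 3 3]])
      (fun M _ => ![M 0, ![M 1 0, M 1 1, M 1 2 + 1, M 1 3 - 1], ![M 2 0, M 2 1 - 1, M 2 2, M 2 3 + 1],
        ![M 3 0, M 3 1 + 1, M 3 2 - 1, M 3 3]]) ?_ ?_ ?_ ?_ ?_
    · intro M hM
      obtain ⟨hM, h1, h2, h3⟩ := mem_filter.1 hM
      obtain ⟨⟨d0, d1, d2, d3⟩, ⟨r0, r1, r2, r3⟩, ⟨c0, c1, c2, c3⟩⟩ := mem_Mats'.1 hM
      rw [mem_filter, mem_Mats']
      simp only [Matrix.cons_val_zero, Matrix.cons_val_one, Matrix.cons_val]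
      refine ⟨⟨⟨?_, ?_, ?_, ?_⟩, ⟨?_, ?_, ?_, ?_⟩, ⟨?_, ?_, ?_, ?_⟩⟩, ?_, ?_, ?_⟩ <;> omega
    · intro M hM
      obtain ⟨hM, h1, h2, h3⟩ := mem_filter.1 hM
      obtain ⟨⟨d0, d1, d2, d3⟩, ⟨r0, r1, r2, r3⟩, ⟨c0, c1, c2, c3⟩⟩ := mem_Mats'.1 hM
      rw [mem_filter, mem_Mats']
      simp only [Matrix.cons_val_zero, Matrix.cons_val_one, Matrix.cons_val]
      refine ⟨⟨⟨?_, ?_, ?_, ?_⟩, ⟨?_, ?_, ?_, ?_⟩, ⟨?_, ?_, ?_, ?_⟩⟩, ?_, ?_, ?_⟩ <;> omega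
    · intro M hM
      obtain ⟨hM, h1, h2, h3⟩ := mem_filter.1 hM
      funext i j
      fin_cases i <;> fin_cases j <;> simp <;> omega
    · intro M hM
      obtain ⟨hM, h1, h2, h3⟩ := mem_filter.1 hM
      funext i j
      fin_cases i <;> fin_cases j <;> simp <;> omega
    · intro M hM
      obtain ⟨hM, h1, h2, h3⟩ := mem_filter.1 hM
      apply T_shift <;> simp <;> omega
  · intro M _ h
    by_contra hc
    apply h
    have : M 1 3 = 0 ∨ M 2 1 = 0 ∨ M 3 2 = 0 := by omega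
    rcases this with h | h | h <;> simp [h]
  · intro M _ h
    by_contra hc
    apply h
    have : M 1 2 = 0 ∨ M 2 3 = 0 ∨ M 3 1 = 0 := by omega
    rcases this with h | h | h <;> simp [h]

lemma sum_Pi4 (a : ℕ) : 3 * (a : ℤ) ^ 3 ∣ ∑ M ∈ Mats a, T cc M * Pi4 a M := by
  have h1 : ∑ M ∈ Mats a, T cc M * phi a (fun i j => M (cyc i) (cyc j)) =
      ∑ M ∈ Mats a, T cc M * phi a M := by
    rw [← sum_perm a cyc (fun M => T cc M * phi a M)]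
    simp only [T_cyc]
  have h2 : ∑ M ∈ Mats a, T cc M * phi a (fun i j => M (cyc (cyc i)) (cyc (cyc j))) =
      ∑ M ∈ Mats a, T cc M * phi a M := by
    rw [← h1, ← sum_perm a cyc (fun M => T cc M * phi a (fun i j => M (cyc i) (cyc j)))]
    simp only [T_cyc]
  have h3 : ∑ M ∈ Mats a, T cc M * Pi4 a M = 3 * ∑ M ∈ Mats a, T cc M * phi a M := by
    rw [sum_congr rfl (fun M hM => by rw [Pi4_eq hM])]
    simp only [mul_add, sum_add_distrib]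
    rw [h1, h2, sum_shift]
    ring
  rw [h3]
  exact mul_dvd_mul_left _ (dvd_sum fun M hM => phi_dvd hM)

lemma sum_zero_part (a : ℕ) (F : Mx → ℤ_[p]) :
    ∑ M ∈ Mats (p * a), (if ZR p M 0 ∧ ZR p M 1 ∧ ZR p M 2 ∧ ZR p M 3 then F M else 0) =
      ∑ M ∈ Mats a, F (fun i j => p * M i j) := by
  rw [← sum_filter]
  symm
  refine sum_bij' (fun M _ i j => p * M i j) (fun M _ i j => M i j / p) ?_ ?_ ?_ ?_ (fun _ _ => rfl)
  · intro M hM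
    obtain ⟨hd, hr, hc⟩ := mem_Mats.1 hM
    rw [mem_filter, mem_Mats]
    refine ⟨⟨fun i => by rw [hd, mul_zero], fun i => by rw [← mul_sum, hr],
      fun i => by rw [← mul_sum, hc]⟩, ?_, ?_, ?_, ?_⟩ <;> exact fun j => dvd_mul_right _ _
  · intro M hM
    obtain ⟨hM, z0, z1, z2, z3⟩ := mem_filter.1 hM
    obtain ⟨hd, hr, hc⟩ := mem_Mats.1 hM
    have hz : ∀ i j, p * (M i j / p) = M i j := by
      intro i j
      apply Nat.mul_div_cancel'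
      fin_cases i
      exacts [z0 j, z1 j, z2 j, z3 j]
    rw [mem_Mats]
    refine ⟨fun i => by rw [hd, Nat.zero_div], fun i => ?_, fun j => ?_⟩
    · apply Nat.eq_of_mul_eq_mul_left hp.out.pos
      rw [mul_sum]; simp only [hz]; exact hr i
    · apply Nat.eq_of_mul_eq_mul_left hp.out.pos
      rw [mul_sum]; simp only [hz]; exact hc j
  · intro M _
    funext i j
    exact Nat.mul_div_cancel_left _ hp.out.pos
  · intro M hM
    obtain ⟨hM, z0, z1, z2, z3⟩ := mem_filter.1 hM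
    funext i j
    apply Nat.mul_div_cancel'
    fin_cases i
    exacts [z0 j, z1 j, z2 j, z3 j]

lemma three_rows {n : ℕ} {M : Mx} (hM : M ∈ Mats n) {i j k : Fin 4}
    (hij : i ≠ j) (hik : i ≠ k) (hjk : j ≠ k) (h1 : ¬ ZR p M i) (h2 : ¬ ZR p M j)
    (h3 : ¬ ZR p M k) : (n : ℤ_[p]) ^ 3 ∣ ((T cc M : ℤ) : ℤ_[p]) := by
  obtain ⟨x, hx⟩ := not_forall.1 h1
  obtain ⟨y, hy⟩ := not_forall.1 h2
  obtain ⟨z, hz⟩ := not_forall.1 h3
  have := cast_dvd3 (p := p) (T_dvd3 hM cc hij hik hjk x y z)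
  push_cast at this
  exact (((isUnit_natCast hx).mul (isUnit_natCast hy)).mul (isUnit_natCast hz)).dvd_mul_right.1 this

omit hp in
lemma fourth_row {n : ℕ} (hn : p ∣ n) {M : Mx} (hM : M ∈ Mats n) {i j k l : Fin 4}
    (h1 : i ≠ j) (h2 : i ≠ k) (h3 : i ≠ l) (h4 : j ≠ k) (h5 : j ≠ l) (h6 : k ≠ l)
    (zj : ZR p M j) (zk : ZR p M k) (zl : ZR p M l) : ZR p M i := by
  intro x
  have := (mem_Mats.1 hM).2.2 x
  rw [sum_four _ h1 h2 h3 h4 h5 h6] at this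
  rw [← this] at hn
  exact (Nat.dvd_add_left (dvd_add (zj x) (dvd_add (zk x) (zl x)))).1 hn

lemma pointwise {n : ℕ} (hn : p ∣ n) {M : Mx} (hM : M ∈ Mats n) :
    (n : ℤ_[p]) ^ 3 ∣ ((T cc M : ℤ) : ℤ_[p]) -
      ((if ZR p M 0 ∧ ZR p M 1 ∧ ZR p M 2 ∧ ZR p M 3 then ((T cc M : ℤ) : ℤ_[p]) else 0) +
      (if ZR p M 2 ∧ ZR p M 3 ∧ ¬ ZR p M 0 then ((T cc M : ℤ) : ℤ_[p]) else 0) +
      (if ZR p M 1 ∧ ZR p M 3 ∧ ¬ ZR p M 0 then ((T cc M : ℤ) : ℤ_[p]) else 0) +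
      (if ZR p M 1 ∧ ZR p M 2 ∧ ¬ ZR p M 0 then ((T cc M : ℤ) : ℤ_[p]) else 0) +
      (if ZR p M 0 ∧ ZR p M 3 ∧ ¬ ZR p M 1 then ((T cc M : ℤ) : ℤ_[p]) else 0) +
      (if ZR p M 0 ∧ ZR p M 2 ∧ ¬ ZR p M 1 then ((T cc M : ℤ) : ℤ_[p]) else 0) +
      (if ZR p M 0 ∧ ZR p M 1 ∧ ¬ ZR p M 2 then ((T cc M : ℤ) : ℤ_[p]) else 0)) := by
  have f0 := fourth_row hn hM (i := 0) (j := 1) (k := 2) (l := 3) (by decide) (by decide)
    (by decide) (by decide) (by decide) (by decide)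
  have f1 := fourth_row hn hM (i := 1) (j := 0) (k := 2) (l := 3) (by decide) (by decide)
    (by decide) (by decide) (by decide) (by decide)
  have f2 := fourth_row hn hM (i := 2) (j := 0) (k := 1) (l := 3) (by decide) (by decide)
    (by decide) (by decide) (by decide) (by decide)
  have f3 := fourth_row hn hM (i := 3) (j := 0) (k := 1) (l := 2) (by decide) (by decide)
    (by decide) (by decide) (by decide) (by decide)
  have t0 := three_rows (p := p) hM (i := 1) (j := 2) (k := 3) (by decide) (by decide) (by decide)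
  have t1 := three_rows (p := p) hM (i := 0) (j := 2) (k := 3) (by decide) (by decide) (by decide)
  have t2 := three_rows (p := p) hM (i := 0) (j := 1) (k := 3) (by decide) (by decide) (by decide)
  have t3 := three_rows (p := p) hM (i := 0) (j := 1) (k := 2) (by decide) (by decide) (by decide)
  by_cases z0 : ZR p M 0 <;> by_cases z1 : ZR p M 1 <;> by_cases z2 : ZR p M 2 <;>
    by_cases z3 : ZR p M 3 <;> simp_all

theorem W_cong (h2 : p ≠ 2) (a : ℕ) :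
    ((p * a : ℕ) : ℤ_[p]) ^ 3 ∣ ((W cc (p * a) : ℤ) : ℤ_[p]) - (W cc a : ℤ) := by
  have hn : p ∣ p * a := dvd_mul_right p a
  have h0 := dvd_sum (s := Mats (p * a)) (fun M hM => pointwise hn hM)
  simp only [sum_sub_distrib, sum_add_distrib] at h0
  have p1 : ((p * a : ℕ) : ℤ_[p]) ^ 3 ∣ ∑ M ∈ Mats (p * a),
      if ZR p M 2 ∧ ZR p M 3 ∧ ¬ ZR p M 0 then ((T cc M : ℤ) : ℤ_[p]) else 0 :=
    pair_perm h2 ⟨![0, 1, 2, 3], ![0, 1, 2, 3], by decide, by decide⟩ (by decide) hn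
  have p2 : ((p * a : ℕ) : ℤ_[p]) ^ 3 ∣ ∑ M ∈ Mats (p * a),
      if ZR p M 1 ∧ ZR p M 3 ∧ ¬ ZR p M 0 then ((T cc M : ℤ) : ℤ_[p]) else 0 :=
    pair_perm h2 ⟨![0, 2, 1, 3], ![0, 2, 1, 3], by decide, by decide⟩ (by decide) hn
  have p3 : ((p * a : ℕ) : ℤ_[p]) ^ 3 ∣ ∑ M ∈ Mats (p * a),
      if ZR p M 1 ∧ ZR p M 2 ∧ ¬ ZR p M 0 then ((T cc M : ℤ) : ℤ_[p]) else 0 :=
    pair_perm h2 ⟨![0, 3, 1, 2], ![0, 2, 3, 1], by decide, by decide⟩ (by decide) hn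
  have p4 : ((p * a : ℕ) : ℤ_[p]) ^ 3 ∣ ∑ M ∈ Mats (p * a),
      if ZR p M 0 ∧ ZR p M 3 ∧ ¬ ZR p M 1 then ((T cc M : ℤ) : ℤ_[p]) else 0 :=
    pair_perm h2 ⟨![1, 2, 0, 3], ![2, 0, 1, 3], by decide, by decide⟩ (by decide) hn
  have p5 : ((p * a : ℕ) : ℤ_[p]) ^ 3 ∣ ∑ M ∈ Mats (p * a),
      if ZR p M 0 ∧ ZR p M 2 ∧ ¬ ZR p M 1 then ((T cc M : ℤ) : ℤ_[p]) else 0 :=
    pair_perm h2 ⟨![1, 3, 0, 2], ![2, 0, 3, 1], by decide, by decide⟩ (by decide) hn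
  have p6 : ((p * a : ℕ) : ℤ_[p]) ^ 3 ∣ ∑ M ∈ Mats (p * a),
      if ZR p M 0 ∧ ZR p M 1 ∧ ¬ ZR p M 2 then ((T cc M : ℤ) : ℤ_[p]) else 0 :=
    pair_perm h2 ⟨![2, 3, 0, 1], ![2, 3, 0, 1], by decide, by decide⟩ (by decide) hn
  rw [sum_zero_part a (fun M => ((T cc M : ℤ) : ℤ_[p]))] at h0
  have h1 := dvd_sum (s := Mats a) (fun M hM => T_scale h2 hM)
  simp only [sum_sub_distrib, ← mul_sum] at h1
  have h3 : (p : ℤ_[p]) ^ 3 * (a : ℤ_[p]) ^ 3 ∣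
      kap p * ∑ M ∈ Mats a, ((T cc M * Pi4 a M : ℤ) : ℤ_[p]) := by
    obtain ⟨x, hx⟩ := sum_Pi4 a
    obtain ⟨y, hy⟩ := kap_dvd3 h2
    rw [← Int.cast_sum, hx]
    refine ⟨x * y, ?_⟩
    push_cast
    linear_combination ((a : ℤ_[p]) ^ 3 * x) * hy
  rw [show (p : ℤ_[p]) ^ 3 * (a : ℤ_[p]) ^ 3 = ((p * a : ℕ) : ℤ_[p]) ^ 3 by push_cast; ring] at h1 h3
  have := dvd_add (dvd_add (dvd_add (dvd_add (dvd_add (dvd_add (dvd_add (dvd_add h0 p1) p2) p3) p4)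
    p5) p6) h1) h3
  unfold W
  rw [Int.cast_sum, Int.cast_sum]
  convert this using 1
  ring

theorem W_modEq (h2 : p ≠ 2) (m r : ℕ) (hr : 1 ≤ r) :
    Int.ModEq ((p : ℤ) ^ (3 * r)) (W cc (p ^ r * m)) (W cc (p ^ (r - 1) * m)) := by
  obtain ⟨s, rfl⟩ : ∃ s, r = s + 1 := ⟨r - 1, by omega⟩
  have h := W_cong h2 (p ^ s * m)
  rw [show p * (p ^ s * m) = p ^ (s + 1) * m by ring] at h
  rw [Nat.add_sub_cancel]
  apply Int.ModEq.symm
  rw [Int.modEq_iff_dvd, ← PadicInt.pow_p_dvd_int_iff]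
  push_cast at h ⊢
  refine dvd_trans ⟨(m : ℤ_[p]) ^ 3, ?_⟩ h
  ring

end Pool.Agent.MP_ec1b19_nt.H49
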